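import Pool.Agent.Y771.IZ.Disc

set_option autoImplicit false

open Finset Filter Topology MeasureTheory
open scoped NNReal

namespace Pool.Agent.Y771.IZ

open Pool.Agent.Results.MP_0f714a_pr.NotInI0

/-- concave exponents: `ψ` is concave, nondecreasing and continuous on `[0,∞)`, `ψ 0 = 0`. -/
structure Cc (ψ : ℝ → ℝ) : Prop where
  zero : ψ 0 = 0
  conc : ConcaveOn ℝ (Set.Ici 0) ψ
  mono : MonotoneOn ψ (Set.Ici 0)
  cont : Continuous (fun t : ℝ≥0 => ψ t)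

/-- the function `exp (-ψ)` on the half line -/
noncomputable def ex (ψ : ℝ → ℝ) (t : ℝ≥0) : ℝ := Real.exp (-(ψ t))

lemma Cc.nonneg {ψ : ℝ → ℝ} (h : Cc ψ) {t : ℝ} (ht : 0 ≤ t) : 0 ≤ ψ t := by
  rw [← h.zero]; exact h.mono (Set.mem_Ici.mpr le_rfl) (Set.mem_Ici.mpr ht) ht

/-- general criterion: a continuous function whose skeletons of mesh `1 / N j` are renewal
sequences is a standard p-function -/
lemma isStd_of_skel {p : ℝ≥0 → ℝ} (hc : Continuous p) (hp0 : p 0 = 1) (N : ℕ → ℕ)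
    (hN : Tendsto N atTop atTop)
    (hr : ∀ j, IsRenewal (fun n => p ((n : ℝ≥0) / (N j : ℝ≥0)))) : IsStd p := by
  choose _ f hf hf1 hr using hr
  obtain ⟨P, hP, hPV⟩ := exists_process p hc hp0 N hN f hf hf1 (fun j n => hr j n)
  refine ⟨isPFunction_of_process _ hp0 P hP hPV, ?_⟩
  have := hc.tendsto 0
  rw [hp0] at this
  exact this

lemma Cc.mid {ψ : ℝ → ℝ} (h : Cc ψ) {t s : ℝ} (ht : 0 ≤ t) (hs : 0 ≤ s) :
    ψ t + ψ (t + 2 * s) ≤ 2 * ψ (t + s) := by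
  have h1 := h.conc.2 (Set.mem_Ici.mpr ht) (Set.mem_Ici.mpr (show 0 ≤ t + 2 * s by positivity))
    (show (0 : ℝ) ≤ 1 / 2 by norm_num) (show (0 : ℝ) ≤ 1 / 2 by norm_num) (by norm_num)
  simp only [smul_eq_mul] at h1
  rw [show 1 / 2 * t + 1 / 2 * (t + 2 * s) = t + s by ring] at h1
  linarith

lemma ex_lc {ψ : ℝ → ℝ} (h : Cc ψ) (N : ℕ) (n : ℕ) :
    Real.exp (-ψ (((n + 1 : ℕ) : ℝ) / N)) ^ 2 ≤
      Real.exp (-ψ ((n : ℝ) / N)) * Real.exp (-ψ (((n + 2 : ℕ) : ℝ) / N)) := by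
  rw [← Real.exp_nat_mul, ← Real.exp_add, Real.exp_le_exp]
  have h1 := h.mid (t := (n : ℝ) / N) (s := 1 / N) (by positivity) (by positivity)
  rw [show (n : ℝ) / N + 2 * (1 / N) = ((n + 2 : ℕ) : ℝ) / N by push_cast; ring,
    show (n : ℝ) / N + 1 / N = ((n + 1 : ℕ) : ℝ) / N by push_cast; ring] at h1
  push_cast at h1 ⊢
  linarith

lemma ex_anti {ψ : ℝ → ℝ} (h : Cc ψ) (N : ℕ) (n : ℕ) :
    Real.exp (-ψ (((n + 1 : ℕ) : ℝ) / N)) ≤ Real.exp (-ψ ((n : ℝ) / N)) := by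
  rw [Real.exp_le_exp, neg_le_neg_iff]
  apply h.mono
  · exact Set.mem_Ici.mpr (by positivity)
  · exact Set.mem_Ici.mpr (by positivity)
  · push_cast
    gcongr
    linarith

/-- Kendall: `exp (-ψ)` is a standard p-function for every concave exponent. -/
theorem Cc.isStd {ψ : ℝ → ℝ} (h : Cc ψ) : IsStd (ex ψ) := by
  apply isStd_of_skel (N := fun j => j + 1)
  · unfold ex
    exact Real.continuous_exp.comp h.cont.neg
  · simp [ex, h.zero]
  · exact tendsto_add_atTop_nat 1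
  · intro j
    have e : (fun n : ℕ => ex ψ ((n : ℝ≥0) / ((j + 1 : ℕ) : ℝ≥0))) =
        fun n : ℕ => Real.exp (-ψ ((n : ℝ) / ((j + 1 : ℕ) : ℝ))) := by
      funext n
      unfold ex
      push_cast
      rfl
    rw [e]
    apply isRenewal_of_logconvex
    · simp [h.zero]
    · intro n; exact Real.exp_pos _
    · intro n; exact ex_lc h _ n
    · intro n; exact ex_anti h _ n

lemma ex_add (ψ φ : ℝ → ℝ) (t : ℝ≥0) : ex (fun t => ψ t + φ t) t = ex ψ t * ex φ t := by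
  unfold ex
  rw [← Real.exp_add]
  congr 1
  ring

/-- products of p-functions are p-functions -/
theorem IsPFunction.mul {p q : ℝ≥0 → ℝ} (hp : IsPFunction p) (hq : IsPFunction q) :
    IsPFunction (fun t => p t * q t) := by
  obtain ⟨h0, h1, Ω, mΩ, P, E, hP, hE, hreg⟩ := hp
  obtain ⟨h0', h1', Ω', mΩ', P', E', hP', hE', hreg'⟩ := hq
  refine ⟨by simp [h0, h0'], fun t => ⟨mul_nonneg (h1 t).1 (h1' t).1,
    mul_le_one₀ (h1 t).2 (h1' t).1 (h1' t).2⟩, Ω × Ω', inferInstance, P.prod P',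
    fun t => E t ×ˢ E' t, inferInstance, fun t => (hE t).prod (hE' t), fun n t ht => ?_⟩
  have e1 : (⋂ i, E (t i) ×ˢ E' (t i)) = (⋂ i, E (t i)) ×ˢ (⋂ i, E' (t i)) := by
    ext ⟨x, y⟩
    simp only [Set.mem_iInter, Set.mem_prod]
    exact ⟨fun h => ⟨fun i => (h i).1, fun i => (h i).2⟩, fun h i => ⟨h.1 i, h.2 i⟩⟩
  have e2 : (⋂ i : Fin n, E (t i.succ - t 0) ×ˢ E' (t i.succ - t 0)) =
      (⋂ i : Fin n, E (t i.succ - t 0)) ×ˢ (⋂ i : Fin n, E' (t i.succ - t 0)) := by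
    ext ⟨x, y⟩
    simp only [Set.mem_iInter, Set.mem_prod]
    exact ⟨fun h => ⟨fun i => (h i).1, fun i => (h i).2⟩, fun h i => ⟨h.1 i, h.2 i⟩⟩
  rw [e1, e2, measureReal_prod_prod, measureReal_prod_prod, hreg n t ht, hreg' n t ht]
  ring

theorem IsStd.mul {p q : ℝ≥0 → ℝ} (hp : IsStd p) (hq : IsStd q) :
    IsStd (fun t => p t * q t) := by
  refine ⟨IsPFunction.mul hp.1 hq.1, ?_⟩
  have := hp.2.mul hq.2
  rwa [mul_one] at this

lemma isStd_one : IsStd (fun _ => 1) := by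
  have h : Cc (fun _ => 0) := ⟨rfl, concaveOn_const _ (convex_Ici 0), monotoneOn_const,
    continuous_const⟩
  have := h.isStd
  have e : ex (fun _ => 0) = fun _ => 1 := by
    funext t
    simp [ex]
  rwa [e] at this

/-- factors of factors -/
lemma notMemI0_mul {p r : ℝ≥0 → ℝ} (hp : IsStd p) (hr : IsStd r) (h : ¬ MemI0 p) :
    ¬ MemI0 (fun t => p t * r t) := by
  rintro ⟨-, hall⟩
  apply h
  refine ⟨hp, fun q hq => hall q ?_⟩
  obtain ⟨hq1, s, hs, hps⟩ := hq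
  exact ⟨hq1, fun t => s t * r t, IsStd.mul hs hr, fun t => by
    show p t * r t = q t * (s t * r t)
    rw [hps t]; ring⟩

end Pool.Agent.Y771.IZ
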