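import Pool.Agent.Y771.IZ.Nice

set_option autoImplicit false

open Finset Filter Topology MeasureTheory
open scoped NNReal

namespace Pool.Agent.Y771.IZ

open Pool.Agent.Results.MP_0f714a_pr.NotInI0

/-- existence of a supporting slope at an interior point -/
lemma Cc.support {ψ : ℝ → ℝ} (h : Cc ψ) {d : ℝ} (hd : 0 < d) :
    ∃ g : ℝ, 0 ≤ g ∧ ∀ t, 0 ≤ t → ψ t ≤ ψ d + g * (t - d) := by
  set S := (fun t => (ψ t - ψ d) / (t - d)) '' Set.Ioi d with hS
  have hne : S.Nonempty := ⟨_, ⟨d + 1, Set.mem_Ioi.mpr (by linarith), rfl⟩⟩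
  have hup : ∀ s, 0 ≤ s → s < d → ∀ y ∈ S, y ≤ (ψ d - ψ s) / (d - s) := by
    rintro s hs0 hsd y ⟨t, ht, rfl⟩
    have ht' : d < t := ht
    exact h.conc.slope_anti_adjacent (Set.mem_Ici.mpr hs0)
      (Set.mem_Ici.mpr (by linarith)) hsd ht'
  have hbdd : BddAbove S := ⟨_, hup 0 le_rfl hd⟩
  refine ⟨sSup S, ?_, fun t ht => ?_⟩
  · have h1 : (ψ (d + 1) - ψ d) / (d + 1 - d) ≤ sSup S :=
      le_csSup hbdd ⟨d + 1, Set.mem_Ioi.mpr (by linarith), rfl⟩
    refine le_trans ?_ h1
    apply div_nonneg
    · have := h.mono (Set.mem_Ici.mpr hd.le) (Set.mem_Ici.mpr (show 0 ≤ d + 1 by linarith))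
        (show d ≤ d + 1 by linarith)
      linarith
    · linarith
  · rcases lt_trichotomy t d with h1 | h1 | h1
    · have h2 : sSup S ≤ (ψ d - ψ t) / (d - t) := csSup_le hne (hup t ht h1)
      rw [le_div_iff₀ (by linarith)] at h2
      linarith
    · subst h1; simp
    · have h2 : (ψ t - ψ d) / (t - d) ≤ sSup S :=
        le_csSup hbdd ⟨t, Set.mem_Ioi.mpr h1, rfl⟩
      rw [div_le_iff₀ (by linarith)] at h2
      linarith

/-- lower cut -/
noncomputable def low (ψ : ℝ → ℝ) (d g t : ℝ) : ℝ := ψ (min t d) - g * min t d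
/-- upper cut -/
noncomputable def high (ψ : ℝ → ℝ) (d g t : ℝ) : ℝ := ψ t - low ψ d g t

lemma low_of_ge {ψ : ℝ → ℝ} {d g t : ℝ} (h : d ≤ t) : low ψ d g t = ψ d - g * d := by
  unfold low; rw [min_eq_right h]

lemma low_of_le {ψ : ℝ → ℝ} {d g t : ℝ} (h : t ≤ d) : low ψ d g t = ψ t - g * t := by
  unfold low; rw [min_eq_left h]

lemma high_of_ge {ψ : ℝ → ℝ} {d g t : ℝ} (h : d ≤ t) : high ψ d g t = ψ t - ψ d + g * d := by
  unfold high; rw [low_of_ge h]; ring

lemma high_of_le {ψ : ℝ → ℝ} {d g t : ℝ} (h : t ≤ d) : high ψ d g t = g * t := by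
  unfold high; rw [low_of_le h]; ring

lemma Cc.isHigh {ψ : ℝ → ℝ} (h : Cc ψ) {d g : ℝ} (hd : 0 < d) (hg : 0 ≤ g)
    (hs : ∀ t, 0 ≤ t → ψ t ≤ ψ d + g * (t - d)) : Cc (high ψ d g) := by
  refine ⟨?_, ?_, ?_, ?_⟩
  · rw [high_of_le hd.le]; simp
  · apply concaveOn_of_slope_anti_adjacent (convex_Ici 0)
    intro x y z hx hz hxy hyz
    have hx' : 0 ≤ x := hx
    rcases le_total z d with h1 | h1
    · rw [high_of_le h1, high_of_le (hyz.le.trans h1), high_of_le ((hxy.trans hyz).le.trans h1),
        ← mul_sub, ← mul_sub, mul_div_assoc, mul_div_assoc, div_self (by linarith),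
        div_self (by linarith)]
    · rcases le_or_gt y d with h2 | h2
      · rw [high_of_ge h1, high_of_le h2, high_of_le (hxy.le.trans h2), ← mul_sub,
          mul_div_assoc, div_self (by linarith), mul_one, div_le_iff₀ (by linarith)]
        have := hs z (by linarith)
        linarith
      · rcases le_or_gt d x with h3 | h3
        · rw [high_of_ge h1, high_of_ge h2.le, high_of_ge h3]
          have h4 := h.conc.slope_anti_adjacent hx hz hxy hyz
          have e1 : ψ z - ψ d + g * d - (ψ y - ψ d + g * d) = ψ z - ψ y := by ring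
          have e2 : ψ y - ψ d + g * d - (ψ x - ψ d + g * d) = ψ y - ψ x := by ring
          rw [e1, e2]
          exact h4
        · rw [high_of_ge h1, high_of_ge h2.le, high_of_le h3.le]
          have h4 := h.conc.slope_anti_adjacent (Set.mem_Ici.mpr hd.le) hz h2 hyz
          have e1 : ψ z - ψ d + g * d - (ψ y - ψ d + g * d) = ψ z - ψ y := by ring
          rw [e1]
          set σ := (ψ z - ψ y) / (z - y) with hσ
          rw [le_div_iff₀ (by linarith)] at h4 ⊢
          have h5 := hs y (by linarith)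
          have h6 : σ ≤ g := by
            by_contra hcon
            push Not at hcon
            have : g * (y - d) < σ * (y - d) := by
              apply mul_lt_mul_of_pos_right hcon; linarith
            linarith
          have h7 : σ * (d - x) ≤ g * (d - x) := by
            apply mul_le_mul_of_nonneg_right h6; linarith
          linarith
  · intro a ha b hb hab
    have ha' : 0 ≤ a := ha
    rcases le_total b d with h1 | h1
    · rw [high_of_le h1, high_of_le (hab.trans h1)]
      gcongr
    · rcases le_total a d with h2 | h2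
      · rw [high_of_ge h1, high_of_le h2]
        have := h.mono (Set.mem_Ici.mpr hd.le) hb h1
        have : g * a ≤ g * d := by gcongr
        linarith
      · rw [high_of_ge h1, high_of_ge h2]
        have := h.mono ha hb hab
        linarith
  · have e : (fun t : ℝ≥0 => high ψ d g t) = fun t : ℝ≥0 =>
        ψ t - (ψ ((min t (Real.toNNReal d) : ℝ≥0) : ℝ) - g * min (t : ℝ) d) := by
      funext t
      unfold high low
      rw [NNReal.coe_min, Real.coe_toNNReal d hd.le]
    rw [e]
    have h1 := h.cont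
    have h2 : Continuous (fun t : ℝ≥0 => ψ ((min t (Real.toNNReal d) : ℝ≥0) : ℝ)) :=
      h1.comp (continuous_id.min continuous_const)
    have h3 : Continuous (fun t : ℝ≥0 => g * min (t : ℝ) d) := by fun_prop
    exact h1.sub (h2.sub h3)

lemma Cc.isLow {ψ : ℝ → ℝ} (h : Cc ψ) {d g : ℝ} (hd : 0 < d)
    (hs : ∀ t, 0 ≤ t → ψ t ≤ ψ d + g * (t - d)) : Cc (low ψ d g) := by
  have hmono : MonotoneOn (low ψ d g) (Set.Ici 0) := by
    intro a ha b hb hab
    have ha' : 0 ≤ a := ha
    have hb' : 0 ≤ b := hb
    have key : ∀ a b, 0 ≤ a → a ≤ b → b ≤ d → ψ a - g * a ≤ ψ b - g * b := by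
      intro a b ha hab hbd
      rcases eq_or_lt_of_le hab with h1 | h1
      · rw [h1]
      rcases eq_or_lt_of_le hbd with h2 | h2
      · rw [h2]
        have := hs a ha
        linarith
      · have h3 := h.conc.slope_anti_adjacent (Set.mem_Ici.mpr ha)
          (Set.mem_Ici.mpr hd.le) h1 h2
        have h4 := hs b (by linarith)
        have h5 : g ≤ (ψ d - ψ b) / (d - b) := by
          rw [le_div_iff₀ (by linarith)]
          linarith
        have h6 := h5.trans h3
        rw [le_div_iff₀ (by linarith)] at h6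
        linarith
    rcases le_total b d with h1 | h1
    · rw [low_of_le h1, low_of_le (hab.trans h1)]
      exact key a b ha' hab h1
    · rcases le_total a d with h2 | h2
      · rw [low_of_ge h1, low_of_le h2]
        exact key a d ha' h2 le_rfl
      · rw [low_of_ge h1, low_of_ge h2]
  refine ⟨?_, ⟨convex_Ici 0, ?_⟩, hmono, ?_⟩
  · rw [low_of_le hd.le, h.zero]; simp
  · intro a ha b hb α β hα hβ hαβ
    have ha' : 0 ≤ a := ha
    have hb' : 0 ≤ b := hb
    simp only [smul_eq_mul]
    have ha1 : 0 ≤ min a d := le_min ha' hd.le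
    have hb1 : 0 ≤ min b d := le_min hb' hd.le
    have h1 := h.conc.2 (Set.mem_Ici.mpr ha1) (Set.mem_Ici.mpr hb1) hα hβ hαβ
    simp only [smul_eq_mul] at h1
    have hsum0 : 0 ≤ α * min a d + β * min b d := by positivity
    have hle : α * min a d + β * min b d ≤ α * a + β * b := by
      have := min_le_left a d
      have := min_le_left b d
      gcongr
    have hle2 : α * min a d + β * min b d ≤ d := by
      calc α * min a d + β * min b d ≤ α * d + β * d := by
            have := min_le_right a d
            have := min_le_right b d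
            gcongr
        _ = (α + β) * d := by ring
        _ = d := by rw [hαβ, one_mul]
    have h2 := hmono (Set.mem_Ici.mpr hsum0) (Set.mem_Ici.mpr (hsum0.trans hle)) hle
    rw [low_of_le hle2] at h2
    have e1 : low ψ d g a = ψ (min a d) - g * min a d := rfl
    have e2 : low ψ d g b = ψ (min b d) - g * min b d := rfl
    rw [e1, e2]
    nlinarith
  · have e : (fun t : ℝ≥0 => low ψ d g t) = fun t : ℝ≥0 =>
        (ψ ((min t (Real.toNNReal d) : ℝ≥0) : ℝ) - g * min (t : ℝ) d) := by
      funext t
      unfold low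
      rw [NNReal.coe_min, Real.coe_toNNReal d hd.le]
    rw [e]
    have h2 : Continuous (fun t : ℝ≥0 => ψ ((min t (Real.toNNReal d) : ℝ≥0) : ℝ)) :=
      h.cont.comp (continuous_id.min continuous_const)
    have h3 : Continuous (fun t : ℝ≥0 => g * min (t : ℝ) d) := by fun_prop
    exact h2.sub h3

end Pool.Agent.Y771.IZ
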