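import Pool.Agent.Results.MP_0f714a_pr.NotInI0

set_option autoImplicit false

open Finset

namespace Pool.Agent.Y771.IZ

open Pool.Agent.Results.MP_0f714a_pr.NotInI0

/-! ## Kaluza's theorem -/

lemma ratio_mono {u : ℕ → ℝ} {T : ℕ} (hpos : ∀ n, n ≤ T → 0 < u n)
    (hlc : ∀ n, n + 2 ≤ T → u (n + 1) ^ 2 ≤ u n * u (n + 2)) :
    ∀ m i, i ≤ m → m + 1 ≤ T → u (i + 1) * u m ≤ u (m + 1) * u i := by
  intro m i him
  induction m, him using Nat.le_induction with
  | base => intro _; exact le_rfl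
  | succ m him ih =>
    intro hT
    have h1 := ih (by omega)
    have h2 := hlc m (by omega)
    have p0 := hpos m (by omega)
    have p1 := hpos (m + 1) (by omega)
    have pi := hpos i (by omega)
    have h3 : (u (i + 1) * u (m + 1)) * u m ≤ (u (m + 1 + 1) * u i) * u m := by
      calc (u (i + 1) * u (m + 1)) * u m = (u (i + 1) * u m) * u (m + 1) := by ring
        _ ≤ (u (m + 1) * u i) * u (m + 1) := by gcongr
        _ = u i * u (m + 1) ^ 2 := by ring
        _ ≤ u i * (u m * u (m + 2)) := by gcongr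
        _ = (u (m + 1 + 1) * u i) * u m := by ring_nf
    exact le_of_mul_le_mul_right h3 p0

/-- Kaluza: the gap probabilities of a log-convex sequence are nonnegative. -/
lemma kaluza {u : ℕ → ℝ} {T : ℕ} (hu : u 0 = 1) (hpos : ∀ n, n ≤ T → 0 < u n)
    (hlc : ∀ n, n + 2 ≤ T → u (n + 1) ^ 2 ≤ u n * u (n + 2)) :
    ∀ n, n + 1 ≤ T → H u (n + 1) ≤ H u n := by
  intro n
  induction n using Nat.strong_induction_on with
  | _ n ih =>
    intro hT
    rcases Nat.eq_zero_or_pos n with h0 | h0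
    · subst h0
      have h1 := renewal u hu 0
      simp only [zero_add, Finset.sum_range_one, Nat.sub_zero, hu, mul_one] at h1
      have h2 := hpos 1 (by omega)
      rw [zero_add]
      linarith
    · obtain ⟨m, rfl⟩ : ∃ m, n = m + 1 := ⟨n - 1, by omega⟩
      have r1 := renewal u hu m
      have r2 := renewal u hu (m + 1)
      rw [Finset.sum_range_succ, Nat.sub_self, hu, mul_one] at r2
      have p1 := hpos (m + 1) (by omega)
      have key : u (m + 1) * (H u (m + 1) - H u (m + 1 + 1)) =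
          ∑ k ∈ range (m + 1), (H u k - H u (k + 1)) *
            (u (m + 2) * u (m - k) - u (m + 1) * u (m + 1 - k)) := by
        have e1 : ∑ k ∈ range (m + 1), (H u k - H u (k + 1)) *
            (u (m + 2) * u (m - k) - u (m + 1) * u (m + 1 - k)) =
            u (m + 2) * (∑ k ∈ range (m + 1), (H u k - H u (k + 1)) * u (m - k)) -
            u (m + 1) * (∑ k ∈ range (m + 1), (H u k - H u (k + 1)) * u (m + 1 - k)) := by
          rw [Finset.mul_sum, Finset.mul_sum, ← Finset.sum_sub_distrib]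
          apply Finset.sum_congr rfl
          intro k _
          ring
        rw [e1, ← r1]
        have e2 : u (m + 2) = u (m + 1 + 1) := rfl
        rw [e2]
        linear_combination (-u (m + 1)) * r2
      have hnn : 0 ≤ u (m + 1) * (H u (m + 1) - H u (m + 1 + 1)) := by
        rw [key]
        apply Finset.sum_nonneg
        intro k hk
        rw [Finset.mem_range] at hk
        apply mul_nonneg
        · have := ih k (by omega) (by omega)
          linarith
        · have h3 := ratio_mono hpos hlc (m + 1) (m - k) (by omega) (by omega)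
          have e3 : m - k + 1 = m + 1 - k := by omega
          rw [e3] at h3
          have e4 : u (m + 1 + 1) = u (m + 2) := rfl
          rw [e4] at h3
          linarith
      by_contra hcon
      push Not at hcon
      have : u (m + 1) * (H u (m + 1) - H u (m + 1 + 1)) < 0 :=
        mul_neg_of_pos_of_neg p1 (by linarith)
      linarith

lemma H_nonneg_of_anti {u : ℕ → ℝ} (hu : u 0 = 1) (ha : ∀ n, u (n + 1) ≤ u n) (n : ℕ) :
    0 ≤ H u n := by
  induction n using Nat.strong_induction_on with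
  | _ n ih =>
    rcases Nat.eq_zero_or_pos n with h0 | h0
    · subst h0; rw [H_zero u hu]; norm_num
    · obtain ⟨m, rfl⟩ : ∃ m, n = m + 1 := ⟨n - 1, by omega⟩
      rw [H_succ u hu]
      apply Finset.sum_nonneg
      intro k hk
      rw [Finset.mem_range] at hk
      exact mul_nonneg (by linarith [ha k]) (ih _ (by omega))

theorem isRenewal_of_logconvex {u : ℕ → ℝ} (hu : u 0 = 1) (hpos : ∀ n, 0 < u n)
    (hlc : ∀ n, u (n + 1) ^ 2 ≤ u n * u (n + 2)) (ha : ∀ n, u (n + 1) ≤ u n) :
    IsRenewal u := by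
  refine ⟨hu, fun k => H u k - H u (k + 1), fun k => ?_, fun n => ?_, fun n => renewal _ hu n⟩
  · have := kaluza (T := k + 1) hu (fun n _ => hpos n) (fun n _ => hlc n) k le_rfl
    linarith
  · rw [Finset.sum_range_sub', H_zero _ hu]
    linarith [H_nonneg_of_anti hu ha n]

/-- first order form of the gap probabilities -/
lemma f_form {u : ℕ → ℝ} (hu : u 0 = 1) (n : ℕ) :
    H u (n + 1) - H u (n + 2) = (u (n + 2) - u (n + 1)) +
      ∑ k ∈ range (n + 1), (u k - u (k + 1)) * (H u (n - k) - H u (n + 1 - k)) := by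
  have e1 := H_succ u hu (n + 1)
  have e2 := H_succ u hu n
  rw [Finset.sum_range_succ, Nat.sub_self, H_zero u hu, mul_one] at e1
  have e3 : ∑ k ∈ range (n + 1), (u k - u (k + 1)) * (H u (n - k) - H u (n + 1 - k)) =
      ∑ k ∈ range (n + 1), (u k - u (k + 1)) * H u (n - k) -
      ∑ k ∈ range (n + 1), (u k - u (k + 1)) * H u (n + 1 - k) := by
    rw [← Finset.sum_sub_distrib]
    apply Finset.sum_congr rfl
    intro k _
    ring
  rw [e3, ← e2]
  have e4 : H u (n + 2) = H u (n + 1 + 1) := rfl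
  rw [e4, e1]
  ring

/-! ## The perturbed sequence -/

structure Hy (w : ℕ → ℝ) (A ρ c C δ : ℝ) (M J1 J : ℕ) (κ : ℕ → ℝ) : Prop where
  hw0 : w 0 = 1
  hwpos : ∀ n, 0 < w n
  hlc : ∀ n, w (n + 1) ^ 2 ≤ w n * w (n + 2)
  hanti : ∀ n, w (n + 1) ≤ w n
  hwA : ∀ n, 2 * M ≤ n → w n = A
  hy : 0 < 1 - w 1
  hM : 1 ≤ M
  hJ1 : M ≤ J1
  hJ1' : J1 + 1 ≤ 2 * M
  hJ : M ≤ J + 1
  hJ' : J + 1 ≤ 2 * M
  hρ0 : 0 < ρ
  hρ1 : 2 * ρ ≤ w M - w (J1 + 1)
  hρ2 : ρ * (1 - w 1) ≤ w J1 - w (J1 + 1)
  hρ3 : w (J + 1) - A ≤ ρ * (A / 4)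
  hc0 : 0 < c
  hc1 : c * (1 - w 1) ≤ w J - w (J + 1)
  hC : (2 * M : ℝ) * (1 - w 1) ≤ C
  hκ1 : ∀ n, n ≤ 4 * M → κ n = 0
  hκ2 : ∀ n, 6 * M ≤ n → κ n = 0
  hδ0 : 0 ≤ δ
  hd1 : ∀ n, |κ (n + 1) - κ n| ≤ δ * (1 - w 1)
  hd2 : ∀ n, |κ (n + 2) - 2 * κ (n + 1) + κ n| ≤ δ * (1 - w 1) ^ 2
  hs1 : (C + 2) * δ ≤ ρ ^ 7 / 4
  hs2 : (C + 2) * δ ≤ c * ρ ^ 6 / 2

/-- the perturbed sequence -/
noncomputable def us (w : ℕ → ℝ) (A : ℝ) (κ : ℕ → ℝ) (n : ℕ) : ℝ := w n + A * κ n

section Main

variable {w : ℕ → ℝ} {A ρ c C δ : ℝ} {M J1 J : ℕ} {κ : ℕ → ℝ}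

lemma us_zero (h : Hy w A ρ c C δ M J1 J κ) : us w A κ 0 = 1 := by
  simp [us, h.hκ1 0 (Nat.zero_le _), h.hw0]

lemma us_eq (h : Hy w A ρ c C δ M J1 J κ) {n : ℕ} (hn : n ≤ 4 * M) : us w A κ n = w n := by
  simp [us, h.hκ1 n hn]

lemma w_anti (h : Hy w A ρ c C δ M J1 J κ) : Antitone w := antitone_nat_of_succ_le h.hanti

lemma w_le_one (h : Hy w A ρ c C δ M J1 J κ) (n : ℕ) : w n ≤ 1 := by
  rw [← h.hw0]; exact w_anti h (Nat.zero_le n)

lemma A_pos (h : Hy w A ρ c C δ M J1 J κ) : 0 < A := by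
  rw [← h.hwA (2 * M) le_rfl]; exact h.hwpos _

lemma A_le_one (h : Hy w A ρ c C δ M J1 J κ) : A ≤ 1 := by
  rw [← h.hwA (2 * M) le_rfl]; exact w_le_one h _

lemma w_ge_A (h : Hy w A ρ c C δ M J1 J κ) (n : ℕ) : A ≤ w n := by
  rcases le_total (2 * M) n with h1 | h1
  · rw [h.hwA n h1]
  · rw [← h.hwA (2 * M) le_rfl]; exact w_anti h h1

lemma rho_lt_one' (h : Hy w A ρ c C δ M J1 J κ) : ρ < 1 := by
  have h1 := w_le_one h M
  have h2 := h.hwpos (J1 + 1)
  have h3 := h.hρ1
  have := h.hρ0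
  linarith

/-- differences decrease -/
lemma D_anti (h : Hy w A ρ c C δ M J1 J κ) :
    Antitone (fun k => w k - w (k + 1)) := by
  apply antitone_nat_of_succ_le
  intro k
  have h1 := h.hlc k
  have h2 := h.hwpos k
  have h3 : 0 ≤ w k * (w (k + 2) - 2 * w (k + 1) + w k) := by
    nlinarith [sq_nonneg (w (k + 1) - w k)]
  have h4 : 0 ≤ w (k + 2) - 2 * w (k + 1) + w k := by
    by_contra hcon
    push Not at hcon
    have := mul_neg_of_pos_of_neg h2 hcon
    linarith
  show w (k + 1) - w (k + 1 + 1) ≤ w k - w (k + 1)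
  have e : w (k + 1 + 1) = w (k + 2) := rfl
  rw [e]
  linarith

lemma D_nonneg (h : Hy w A ρ c C δ M J1 J κ) (k : ℕ) : 0 ≤ w k - w (k + 1) := by
  linarith [h.hanti k]

lemma H_one' (h : Hy w A ρ c C δ M J1 J κ) : H (us w A κ) 1 = 1 - w 1 := by
  have hM := h.hM
  rw [H_succ _ (us_zero h) 0]
  simp [us_zero h, us_eq h (n := 1) (by omega), H_zero _ (us_zero h)]

lemma H_anti_init (h : Hy w A ρ c C δ M J1 J κ) {n : ℕ} (hn : n + 1 ≤ 4 * M) :
    H (us w A κ) (n + 1) ≤ H (us w A κ) n := by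
  apply kaluza (T := 4 * M) (us_zero h) _ _ n hn
  · intro m hm
    rw [us_eq h hm]; exact h.hwpos m
  · intro m hm
    rw [us_eq h (by omega), us_eq h (by omega), us_eq h hm]; exact h.hlc m

/-- splitting of the renewal equation of the tails -/
lemma H_split (h : Hy w A ρ c C δ M J1 J κ) (n : ℕ) :
    H (us w A κ) (n + 1) = ∑ k ∈ range (n + 1), (w k - w (k + 1)) * H (us w A κ) (n - k)
      - A * ∑ k ∈ range (n + 1), (κ (k + 1) - κ k) * H (us w A κ) (n - k) := by
  rw [H_succ _ (us_zero h), Finset.mul_sum, ← Finset.sum_sub_distrib]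
  apply Finset.sum_congr rfl
  intro k _
  simp only [us]
  ring

/-- the second order part -/
lemma f_split (h : Hy w A ρ c C δ M J1 J κ) (n : ℕ) :
    H (us w A κ) (n + 1) - H (us w A κ) (n + 2) = (w (n + 2) - w (n + 1)) +
      ∑ k ∈ range (n + 1), (w k - w (k + 1)) * (H (us w A κ) (n - k) - H (us w A κ) (n + 1 - k))
      + A * ∑ k ∈ range (n + 1), (κ (k + 2) - 2 * κ (k + 1) + κ k) * H (us w A κ) (n - k) := by
  have hM := h.hM
  rw [f_form (us_zero h) n]
  set g := H (us w A κ) with hg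
  have hg0 : g 0 = 1 := H_zero _ (us_zero h)
  have e1 : ∑ k ∈ range (n + 1), (us w A κ k - us w A κ (k + 1)) * (g (n - k) - g (n + 1 - k)) =
      ∑ k ∈ range (n + 1), (w k - w (k + 1)) * (g (n - k) - g (n + 1 - k)) -
      A * ∑ k ∈ range (n + 1), (κ (k + 1) - κ k) * (g (n - k) - g (n + 1 - k)) := by
    rw [Finset.mul_sum, ← Finset.sum_sub_distrib]
    apply Finset.sum_congr rfl
    intro k _
    simp only [us]
    ring
  have e2 : ∑ k ∈ range (n + 1), (κ (k + 1) - κ k) * (g (n - k) - g (n + 1 - k)) =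
      (κ (n + 2) - κ (n + 1)) -
      ∑ k ∈ range (n + 1), (κ (k + 2) - 2 * κ (k + 1) + κ k) * g (n - k) := by
    have e3 : ∑ k ∈ range (n + 2), (κ (k + 1) - κ k) * g (n + 1 - k) =
        ∑ k ∈ range (n + 1), (κ (k + 2) - κ (k + 1)) * g (n - k) := by
      rw [Finset.sum_range_succ']
      have z0 : κ 0 = 0 := h.hκ1 0 (Nat.zero_le _)
      have z1 : κ 1 = 0 := h.hκ1 1 (by omega)
      simp only [zero_add, z0, z1, sub_zero, zero_mul, add_zero]
      apply Finset.sum_congr rfl
      intro k _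
      rw [Nat.add_sub_add_right]
    rw [Finset.sum_range_succ, Nat.sub_self, hg0, mul_one] at e3
    have e4 : ∑ k ∈ range (n + 1), (κ (k + 2) - 2 * κ (k + 1) + κ k) * g (n - k) =
        ∑ k ∈ range (n + 1), (κ (k + 2) - κ (k + 1)) * g (n - k) -
        ∑ k ∈ range (n + 1), (κ (k + 1) - κ k) * g (n - k) := by
      rw [← Finset.sum_sub_distrib]
      apply Finset.sum_congr rfl
      intro k _
      ring
    have e5 : ∑ k ∈ range (n + 1), (κ (k + 1) - κ k) * (g (n - k) - g (n + 1 - k)) =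
        ∑ k ∈ range (n + 1), (κ (k + 1) - κ k) * g (n - k) -
        ∑ k ∈ range (n + 1), (κ (k + 1) - κ k) * g (n + 1 - k) := by
      rw [← Finset.sum_sub_distrib]
      apply Finset.sum_congr rfl
      intro k _
      ring
    rw [e5, e4, ← e3]
    ring
  rw [e1, e2]
  simp only [us]
  ring

lemma H_pos_init (h : Hy w A ρ c C δ M J1 J κ) {n : ℕ} (hn : n ≤ 4 * M) :
    0 ≤ H (us w A κ) n := by
  induction n using Nat.strong_induction_on with
  | _ n ih =>
    rcases Nat.eq_zero_or_pos n with h0 | h0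
    · subst h0; rw [H_zero _ (us_zero h)]; norm_num
    · obtain ⟨m, rfl⟩ : ∃ m, n = m + 1 := ⟨n - 1, by omega⟩
      rw [H_succ _ (us_zero h)]
      apply Finset.sum_nonneg
      intro k hk
      rw [Finset.mem_range] at hk
      rw [us_eq h (by omega), us_eq h (by omega)]
      exact mul_nonneg (D_nonneg h k) (ih _ (by omega) (by omega))

lemma anti_init (h : Hy w A ρ c C δ M J1 J κ) {i j : ℕ} (hij : i ≤ j) (hj : j ≤ 4 * M) :
    H (us w A κ) j ≤ H (us w A κ) i := by
  induction j, hij using Nat.le_induction with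
  | base => exact le_rfl
  | succ j hij ih => exact (H_anti_init h hj).trans (ih (by omega))

/-- pointwise lower bound in the unperturbed range -/
lemma H_low_init (h : Hy w A ρ c C δ M J1 J κ) {n : ℕ} (hn : n + 1 ≤ 4 * M) :
    w n - w (n + 1) ≤ w n * H (us w A κ) (n + 1) := by
  have h1 := H_succ _ (us_zero h) n
  rw [Finset.sum_range_succ, Nat.sub_self, H_zero _ (us_zero h), mul_one, us_eq h hn,
    us_eq h (by omega)] at h1
  have h2 : ∑ k ∈ range n, (w k - w (k + 1)) * H (us w A κ) (n + 1) ≤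
      ∑ k ∈ range n, (us w A κ k - us w A κ (k + 1)) * H (us w A κ) (n - k) := by
    apply Finset.sum_le_sum
    intro k hk
    rw [Finset.mem_range] at hk
    rw [us_eq h (by omega), us_eq h (by omega)]
    have h3 := D_nonneg h k
    have h4 := anti_init h (i := n - k) (j := n + 1) (by omega) hn
    gcongr
  rw [← Finset.sum_mul, Finset.sum_range_sub', h.hw0] at h2
  nlinarith

/-- the induction statement -/
def S3 (g : ℕ → ℝ) (ρ : ℝ) (M n : ℕ) : Prop :=
  (∀ j, 1 ≤ j → j ≤ n → 0 < g j) ∧ (∀ j, 1 ≤ j → j + 1 ≤ n → g (j + 1) ≤ g j) ∧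
    (∀ j, 1 ≤ j → j + M ≤ n → ρ * g j ≤ g (j + M))

lemma S3.anti {g : ℕ → ℝ} {n : ℕ} (h : S3 g ρ M n) {i j : ℕ} (hi : 1 ≤ i) (hij : i ≤ j)
    (hj : j ≤ n) : g j ≤ g i := by
  induction j, hij using Nat.le_induction with
  | base => exact le_rfl
  | succ j hij ih => exact (h.2.1 j (by omega) hj).trans (ih (by omega))

lemma S3.chain {g : ℕ → ℝ} (hρ0 : 0 < ρ) (hρ1 : ρ < 1) (hg1 : ∀ j, 1 ≤ j → j ≤ M → ρ * g 1 ≤ g j)
    {n : ℕ} (hS : S3 g ρ M n) :
    ∀ r j i : ℕ, 1 ≤ i → i ≤ j → j ≤ n → j ≤ i + r * M → ρ ^ r * g i ≤ g j := by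
  intro r
  induction r with
  | zero =>
    intro j i hi hij hj hr
    have : j = i := by omega
    subst this
    simp
  | succ r ih =>
    intro j i hi hij hj hr
    have hHi := hS.1 i hi (by omega)
    have hpr : ρ ^ r ≤ 1 := pow_le_one₀ hρ0.le hρ1.le
    have hpr0 : 0 < ρ ^ r := pow_pos hρ0 r
    rcases le_or_gt j M with hjM | hjM
    · have h1 := hg1 j (by omega) hjM
      have h2 := hS.anti (i := 1) (j := i) le_rfl hi (by omega)
      calc ρ ^ (r + 1) * g i = ρ ^ r * (ρ * g i) := by ring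
        _ ≤ 1 * (ρ * g i) := by gcongr
        _ ≤ ρ * g 1 := by rw [one_mul]; gcongr
        _ ≤ _ := h1
    · have h1 := hS.2.2 (j - M) (by omega) (by omega)
      rw [Nat.sub_add_cancel hjM.le] at h1
      rcases le_or_gt i (j - M) with h2 | h2
      · have h3 := ih (j - M) i hi h2 (by omega) (by
          have : (r + 1) * M = r * M + M := by ring
          omega)
        calc ρ ^ (r + 1) * g i = ρ * (ρ ^ r * g i) := by ring
          _ ≤ ρ * g (j - M) := by gcongr
          _ ≤ _ := h1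
      · have h3 := hS.anti (i := j - M) (j := i) (by omega) h2.le (by omega)
        calc ρ ^ (r + 1) * g i = ρ ^ r * (ρ * g i) := by ring
          _ ≤ 1 * (ρ * g i) := by gcongr
          _ ≤ ρ * g (j - M) := by rw [one_mul]; gcongr
          _ ≤ _ := h1

lemma low_start (h : Hy w A ρ c C δ M J1 J κ) {j : ℕ} (h1 : 1 ≤ j) (h2 : j ≤ J1 + 1) :
    ρ * H (us w A κ) 1 ≤ H (us w A κ) j := by
  have hJ1' := h.hJ1'
  have hM := h.hM
  obtain ⟨n, rfl⟩ : ∃ n, j = n + 1 := ⟨j - 1, by omega⟩
  have h3 := H_low_init h (n := n) (by omega)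
  have h4 := D_anti h (show n ≤ J1 by omega)
  have h5 := h.hρ2
  have h6 := w_le_one h n
  have h7 := H_pos_init h (n := n + 1) (by omega)
  simp only at h4
  rw [H_one' h]
  nlinarith

lemma chainH (h : Hy w A ρ c C δ M J1 J κ) {n : ℕ} (hS : S3 (H (us w A κ)) ρ M n) :
    ∀ r j i : ℕ, 1 ≤ i → i ≤ j → j ≤ n → j ≤ i + r * M →
      ρ ^ r * H (us w A κ) i ≤ H (us w A κ) j :=
  S3.chain h.hρ0 (rho_lt_one' h)
    (fun j h1 h2 => low_start h h1 (by have := h.hJ1; omega)) hS

lemma sum_bd (h : Hy w A ρ c C δ M J1 J κ) {a : ℕ → ℝ} {β K : ℝ} (m : ℕ) (hβ : 0 ≤ β)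
    (hK : 0 ≤ K) (hc : ∀ k, |a k| ≤ β) (hc0 : ∀ k, a k ≠ 0 → 4 * M - 1 ≤ k ∧ k < 6 * M)
    (hpos : ∀ k, k < m → 0 ≤ H (us w A κ) (m - k))
    (hC1 : ∀ k, 4 * M - 1 ≤ k → k < 6 * M → k < m → H (us w A κ) (m - k) ≤ K)
    (hC2 : 4 * M - 1 ≤ m → m < 6 * M → 1 - w 1 ≤ K) :
    |∑ k ∈ range (m + 1), a k * H (us w A κ) (m - k)| * (1 - w 1) ≤ (C + 2) * (β * K) := by
  have hy := h.hy
  have hM := h.hM
  have hterm : ∀ k ∈ range (m + 1), |a k * H (us w A κ) (m - k)| * (1 - w 1) ≤
      (if k ∈ Finset.Ico (4 * M - 1) (6 * M) then β * K * (1 - w 1) else 0)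
        + (if k = m then β * K else 0) := by
    intro k hk
    rw [Finset.mem_range] at hk
    by_cases hck : a k = 0
    · rw [hck, zero_mul, abs_zero, zero_mul]
      have : 0 ≤ β * K := mul_nonneg hβ hK
      have : 0 ≤ β * K * (1 - w 1) := mul_nonneg this hy.le
      split_ifs <;> linarith
    · obtain ⟨h1, h2⟩ := hc0 k hck
      rw [if_pos (by rw [Finset.mem_Ico]; exact ⟨h1, h2⟩)]
      rw [abs_mul]
      rcases Nat.lt_or_ge k m with h3 | h3
      · rw [if_neg (by omega), add_zero, abs_of_nonneg (hpos k h3)]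
        have := hC1 k h1 h2 h3
        have h4 := hpos k h3
        have h5 := hc k
        gcongr
      · have hkm : k = m := by omega
        subst hkm
        rw [if_pos rfl, Nat.sub_self, H_zero _ (us_zero h), abs_one, mul_one]
        have h5 := hc k
        have h6 := hC2 h1 h2
        have h7 : |a k| * (1 - w 1) ≤ β * K := by gcongr
        have h8 : 0 ≤ β * K * (1 - w 1) := mul_nonneg (mul_nonneg hβ hK) hy.le
        linarith
  have hsum : |∑ k ∈ range (m + 1), a k * H (us w A κ) (m - k)| * (1 - w 1) ≤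
      (2 * M + 1) * (β * K * (1 - w 1)) + β * K := by
    calc |∑ k ∈ range (m + 1), a k * H (us w A κ) (m - k)| * (1 - w 1)
        ≤ (∑ k ∈ range (m + 1), |a k * H (us w A κ) (m - k)|) * (1 - w 1) := by
          gcongr
          exact Finset.abs_sum_le_sum_abs _ _
      _ = ∑ k ∈ range (m + 1), |a k * H (us w A κ) (m - k)| * (1 - w 1) := by
          rw [Finset.sum_mul]
      _ ≤ ∑ k ∈ range (m + 1), ((if k ∈ Finset.Ico (4 * M - 1) (6 * M)
            then β * K * (1 - w 1) else 0) + (if k = m then β * K else 0)) :=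
          Finset.sum_le_sum hterm
      _ = ∑ k ∈ range (m + 1), (if k ∈ Finset.Ico (4 * M - 1) (6 * M)
            then β * K * (1 - w 1) else 0) + ∑ k ∈ range (m + 1), (if k = m then β * K else 0) :=
          Finset.sum_add_distrib
      _ ≤ (2 * M + 1) * (β * K * (1 - w 1)) + β * K := by
          apply add_le_add
          · rw [← Finset.sum_filter, Finset.sum_const, nsmul_eq_mul]
            have h9 : 0 ≤ β * K * (1 - w 1) := mul_nonneg (mul_nonneg hβ hK) hy.le
            have h10 : ((Finset.filter (fun k => k ∈ Finset.Ico (4 * M - 1) (6 * M))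
                (range (m + 1))).card : ℝ) ≤ 2 * M + 1 := by
              have h11 : (Finset.filter (fun k => k ∈ Finset.Ico (4 * M - 1) (6 * M))
                  (range (m + 1))) ⊆ Finset.Ico (4 * M - 1) (6 * M) := by
                intro k hk
                exact (Finset.mem_filter.mp hk).2
              have h12 := Finset.card_le_card h11
              rw [Nat.card_Ico] at h12
              have h13 : (Finset.filter (fun k => k ∈ Finset.Ico (4 * M - 1) (6 * M))
                (range (m + 1))).card ≤ 2 * M + 1 := by omega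
              exact_mod_cast h13
            gcongr
          · rw [Finset.sum_ite_eq']
            rw [if_pos (by rw [Finset.mem_range]; omega)]
  have h14 := h.hC
  have h15 : 1 - w 1 ≤ 1 := by have := h.hwpos 1; linarith
  have h17 : 0 ≤ β * K := mul_nonneg hβ hK
  calc |∑ k ∈ range (m + 1), a k * H (us w A κ) (m - k)| * (1 - w 1)
      ≤ (2 * M + 1) * (β * K * (1 - w 1)) + β * K := hsum
    _ = ((2 * M : ℝ) * (1 - w 1) + (1 - w 1) + 1) * (β * K) := by ring
    _ ≤ (C + 1 + 1) * (β * K) := by gcongr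
    _ = (C + 2) * (β * K) := by ring

/-- first order bound -/
lemma pert_one (h : Hy w A ρ c C δ M J1 J κ) {m i : ℕ} (hS : S3 (H (us w A κ)) ρ M m)
    (hi1 : 1 ≤ i) (hi : i ≤ m) (hi3 : m < 6 * M → i ≤ 1 + 6 * M)
    (hi4 : ∀ k, 4 * M - 1 ≤ k → k < 6 * M → k < m → m - k ≤ i ∧ i ≤ m - k + 6 * M) :
    |∑ k ∈ range (m + 1), (κ (k + 1) - κ k) * H (us w A κ) (m - k)| ≤
      (C + 2) * δ * (H (us w A κ) i / ρ ^ 6) := by
  have hρ0 := h.hρ0
  have hy := h.hy
  have hHi := hS.1 i hi1 hi
  have hb := sum_bd h (a := fun k => κ (k + 1) - κ k)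
      (β := δ * (1 - w 1)) (K := H (us w A κ) i / ρ ^ 6) m
      (mul_nonneg h.hδ0 hy.le) (by positivity) h.hd1
      (fun k hk => by
        by_contra hcon
        rw [not_and_or, not_le, not_lt] at hcon
        rcases hcon with hcon | hcon
        · exact hk (by rw [h.hκ1 _ (by omega), h.hκ1 _ (by omega), sub_zero])
        · exact hk (by rw [h.hκ2 _ (by omega), h.hκ2 _ (by omega), sub_zero]))
      (fun k hk => (hS.1 (m - k) (by omega) (by omega)).le)
      (fun k hk1 hk2 hk3 => by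
        rw [le_div_iff₀ (by positivity), mul_comm]
        have := hi4 k hk1 hk2 hk3
        exact chainH h hS 6 i (m - k) (by omega) (by omega) (by omega) (by omega))
      (fun hk1 hk2 => by
        rw [le_div_iff₀ (by positivity), mul_comm, ← H_one' h]
        exact chainH h hS 6 i 1 (by omega) (by omega) (by omega) (by have := hi3 hk2; omega))
  have h2 : (C + 2) * (δ * (1 - w 1) * (H (us w A κ) i / ρ ^ 6)) =
      ((C + 2) * δ * (H (us w A κ) i / ρ ^ 6)) * (1 - w 1) := by ring
  rw [h2] at hb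
  exact le_of_mul_le_mul_right hb hy

/-- the main part of the Harnack inequality -/
lemma main_low (h : Hy w A ρ c C δ M J1 J κ) {n : ℕ} (hn : J1 + 1 ≤ n)
    (hpos : ∀ j, j ≤ n → 0 ≤ H (us w A κ) j)
    (hanti : ∀ i j, 1 ≤ i → i ≤ j → j ≤ n → H (us w A κ) j ≤ H (us w A κ) i) :
    2 * ρ * H (us w A κ) (n - M) ≤
      ∑ k ∈ range (n + 1), (w k - w (k + 1)) * H (us w A κ) (n - k) := by
  have hJ1 := h.hJ1
  have h7 : ∑ k ∈ Finset.Ico M (J1 + 1), (w k - w (k + 1)) = w M - w (J1 + 1) := by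
    rw [Finset.sum_Ico_eq_sub _ (by omega), Finset.sum_range_sub', Finset.sum_range_sub']
    ring
  calc 2 * ρ * H (us w A κ) (n - M) ≤ (w M - w (J1 + 1)) * H (us w A κ) (n - M) := by
        have := h.hρ1
        have := hpos (n - M) (by omega)
        gcongr
    _ = ∑ k ∈ Finset.Ico M (J1 + 1), (w k - w (k + 1)) * H (us w A κ) (n - M) := by
        rw [← h7, Finset.sum_mul]
    _ ≤ ∑ k ∈ Finset.Ico M (J1 + 1), (w k - w (k + 1)) * H (us w A κ) (n - k) := by
        apply Finset.sum_le_sum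
        intro k hk
        rw [Finset.mem_Ico] at hk
        have h1 := hanti (n - k) (n - M) (by omega) (by omega) (by omega)
        have h2 := D_nonneg h k
        gcongr
    _ ≤ _ := by
        apply Finset.sum_le_sum_of_subset_of_nonneg
        · intro k hk
          rw [Finset.mem_Ico] at hk
          rw [Finset.mem_range]
          omega
        · intro k hk _
          rw [Finset.mem_range] at hk
          exact mul_nonneg (D_nonneg h k) (hpos _ (by omega))

lemma small_one (h : Hy w A ρ c C δ M J1 J κ) : (C + 2) * δ / ρ ^ 6 ≤ ρ / 4 := by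
  have hρ0 := h.hρ0
  rw [div_le_iff₀ (by positivity)]
  calc (C + 2) * δ ≤ ρ ^ 7 / 4 := h.hs1
    _ = ρ / 4 * ρ ^ 6 := by ring

lemma base_harnack (h : Hy w A ρ c C δ M J1 J κ) {j : ℕ} (h1 : 1 ≤ j) (h2 : j + M ≤ 4 * M) :
    ρ * H (us w A κ) j ≤ H (us w A κ) (j + M) := by
  have hM := h.hM
  have hρ0 := h.hρ0
  rcases Nat.lt_or_ge (J1 + 1) (j + M) with h3 | h3
  · obtain ⟨n, hn⟩ : ∃ n, j + M = n + 1 := ⟨j + M - 1, by omega⟩
    have h4 := main_low h (n := n) (by omega) (fun i hi => H_pos_init h (by omega))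
      (fun a b _ hab hb => anti_init h hab (by omega))
    have h5 := H_split h n
    have h6 : ∑ k ∈ range (n + 1), (κ (k + 1) - κ k) * H (us w A κ) (n - k) = 0 := by
      apply Finset.sum_eq_zero
      intro k hk
      rw [Finset.mem_range] at hk
      rw [h.hκ1 _ (by omega), h.hκ1 _ (by omega)]
      ring
    rw [h6, mul_zero, sub_zero] at h5
    have h7 := anti_init h (i := n - M) (j := j) (by omega) (by omega)
    have h8 := H_pos_init h (n := n - M) (by omega)
    rw [hn, h5]
    nlinarith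
  · have h4 := low_start h (j := j + M) (by omega) h3
    have h5 := anti_init h (i := 1) (j := j) h1 (by omega)
    nlinarith

lemma base_pos (h : Hy w A ρ c C δ M J1 J κ) {j : ℕ} (h1 : 1 ≤ j) (h2 : j ≤ 4 * M) :
    0 < H (us w A κ) j := by
  have hM := h.hM
  have hρ0 := h.hρ0
  have hy := h.hy
  have hJ1 := h.hJ1
  induction j using Nat.strong_induction_on with
  | _ j ih =>
    rcases le_or_gt j M with h3 | h3
    · have h4 := low_start h (j := j) h1 (by omega)
      rw [H_one' h] at h4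
      have : 0 < ρ * (1 - w 1) := mul_pos hρ0 hy
      linarith
    · have h4 := ih (j - M) (by omega) (by omega) (by omega)
      have h5 := base_harnack h (j := j - M) (by omega) (by omega)
      rw [Nat.sub_add_cancel h3.le] at h5
      have : 0 < ρ * H (us w A κ) (j - M) := mul_pos hρ0 h4
      linarith

lemma H_nn (h : Hy w A ρ c C δ M J1 J κ) {n : ℕ} (hS : S3 (H (us w A κ)) ρ M n) {j : ℕ}
    (hj : j ≤ n) : 0 ≤ H (us w A κ) j := by
  rcases Nat.eq_zero_or_pos j with h0 | h0
  · subst h0; rw [H_zero _ (us_zero h)]; norm_num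
  · exact (hS.1 j h0 hj).le

lemma step_h (h : Hy w A ρ c C δ M J1 J κ) {n : ℕ} (hn : 4 * M ≤ n)
    (hS : S3 (H (us w A κ)) ρ M n) : ρ * H (us w A κ) (n + 1 - M) ≤ H (us w A κ) (n + 1) := by
  have hM := h.hM
  have hρ0 := h.hρ0
  have hJ1' := h.hJ1'
  have hA0 := A_pos h
  have hA1 := A_le_one h
  have h1 := main_low h (n := n) (by omega) (fun i hi => H_nn h hS hi)
      (fun a b ha hab hb => hS.anti ha hab hb)
  have h2 := pert_one h (m := n) (i := n - M) hS (by omega) (by omega) (by omega)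
    (fun k hk1 hk2 hk3 => by omega)
  have h3 := hS.1 (n - M) (by omega) (by omega)
  have h4 := small_one h
  have h5 : (C + 2) * δ * (H (us w A κ) (n - M) / ρ ^ 6) ≤ ρ / 4 * H (us w A κ) (n - M) := by
    calc (C + 2) * δ * (H (us w A κ) (n - M) / ρ ^ 6)
        = ((C + 2) * δ / ρ ^ 6) * H (us w A κ) (n - M) := by ring
      _ ≤ _ := by gcongr
  have h6 := H_split h n
  set Sg := ∑ k ∈ range (n + 1), (κ (k + 1) - κ k) * H (us w A κ) (n - k) with hSg
  have h7 : A * Sg ≤ ρ * H (us w A κ) (n - M) := by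
    calc A * Sg ≤ A * |Sg| := by gcongr; exact le_abs_self _
      _ ≤ 1 * |Sg| := by gcongr
      _ ≤ ρ / 4 * H (us w A κ) (n - M) := by rw [one_mul]; exact h2.trans h5
      _ ≤ ρ * H (us w A κ) (n - M) := by
        have : 0 < ρ * H (us w A κ) (n - M) := mul_pos hρ0 h3
        linarith
  have h8 : H (us w A κ) (n + 1 - M) ≤ H (us w A κ) (n - M) :=
    hS.anti (by omega) (by omega) (by omega)
  calc ρ * H (us w A κ) (n + 1 - M) ≤ ρ * H (us w A κ) (n - M) := by gcongr
    _ ≤ _ := by rw [h6]; linarith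

lemma S3.mono {g : ℕ → ℝ} {n m : ℕ} (h : S3 g ρ M n) (hm : m ≤ n) : S3 g ρ M m :=
  ⟨fun j h1 h2 => h.1 j h1 (by omega), fun j h1 h2 => h.2.1 j h1 (by omega),
    fun j h1 h2 => h.2.2 j h1 (by omega)⟩

/-- definite decay over a window of length `J + 1` -/
lemma decay (h : Hy w A ρ c C δ M J1 J κ) {m : ℕ} (hm : 4 * M ≤ m + 1)
    (hS : S3 (H (us w A κ)) ρ M m) :
    H (us w A κ) (m + 1) ≤ (1 - A / 2) * H (us w A κ) (m - J) := by
  have hM := h.hM
  have hρ0 := h.hρ0
  have hJ := h.hJ
  have hJ' := h.hJ'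
  have hA0 := A_pos h
  have hA1 := A_le_one h
  have h2 := pert_one h (m := m) (i := m - J) hS (by omega) (by omega) (by omega)
    (fun k hk1 hk2 hk3 => by omega)
  have h3 := hS.1 (m - J) (by omega) (by omega)
  have h4 := small_one h
  have h5 : (C + 2) * δ * (H (us w A κ) (m - J) / ρ ^ 6) ≤ 1 / 4 * H (us w A κ) (m - J) := by
    calc (C + 2) * δ * (H (us w A κ) (m - J) / ρ ^ 6)
        = ((C + 2) * δ / ρ ^ 6) * H (us w A κ) (m - J) := by ring
      _ ≤ (ρ / 4) * H (us w A κ) (m - J) := by gcongr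
      _ ≤ _ := by
        have := rho_lt_one' h
        gcongr
  have h6 := H_split h m
  set Sg := ∑ k ∈ range (m + 1), (κ (k + 1) - κ k) * H (us w A κ) (m - k) with hSg
  have h7 : -(A * Sg) ≤ A / 4 * H (us w A κ) (m - J) := by
    calc -(A * Sg) = A * (-Sg) := by ring
      _ ≤ A * |Sg| := by gcongr; exact neg_le_abs _
      _ ≤ A * (1 / 4 * H (us w A κ) (m - J)) := by gcongr; exact h2.trans h5
      _ = _ := by ring
  -- the main part
  have h8 : ∑ k ∈ range (m + 1), (w k - w (k + 1)) * H (us w A κ) (m - k) =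
      ∑ k ∈ range (J + 1), (w k - w (k + 1)) * H (us w A κ) (m - k) +
      ∑ k ∈ Finset.Ico (J + 1) (2 * M), (w k - w (k + 1)) * H (us w A κ) (m - k) := by
    have e1 : ∑ k ∈ range (2 * M), (w k - w (k + 1)) * H (us w A κ) (m - k) =
        ∑ k ∈ range (m + 1), (w k - w (k + 1)) * H (us w A κ) (m - k) := by
      apply Finset.sum_subset
      · intro k hk
        rw [Finset.mem_range] at hk ⊢
        omega
      · intro k _ hk
        rw [Finset.mem_range, not_lt] at hk
        rw [h.hwA k hk, h.hwA (k + 1) (by omega), sub_self, zero_mul]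
    rw [← e1, Finset.sum_range_add_sum_Ico _ hJ']
  have h9 : ∑ k ∈ range (J + 1), (w k - w (k + 1)) * H (us w A κ) (m - k) ≤
      (1 - w (J + 1)) * H (us w A κ) (m - J) := by
    have e2 : ∑ k ∈ range (J + 1), (w k - w (k + 1)) = 1 - w (J + 1) := by
      rw [Finset.sum_range_sub', h.hw0]
    rw [← e2, Finset.sum_mul]
    apply Finset.sum_le_sum
    intro k hk
    rw [Finset.mem_range] at hk
    have g1 := D_nonneg h k
    have g2 := hS.anti (i := m - J) (j := m - k) (by omega) (by omega) (by omega)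
    gcongr
  have h10 : ∑ k ∈ Finset.Ico (J + 1) (2 * M), (w k - w (k + 1)) * H (us w A κ) (m - k) ≤
      (w (J + 1) - A) * H (us w A κ) (m + 1 - 2 * M) := by
    have e2 : ∑ k ∈ Finset.Ico (J + 1) (2 * M), (w k - w (k + 1)) = w (J + 1) - A := by
      rw [Finset.sum_Ico_eq_sub _ hJ', Finset.sum_range_sub', Finset.sum_range_sub',
        h.hwA _ le_rfl]
      ring
    rw [← e2, Finset.sum_mul]
    apply Finset.sum_le_sum
    intro k hk
    rw [Finset.mem_Ico] at hk
    have g1 := D_nonneg h k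
    have g2 := hS.anti (i := m + 1 - 2 * M) (j := m - k) (by omega) (by omega) (by omega)
    gcongr
  have h11 := chainH h hS 1 (m - J) (m + 1 - 2 * M) (by omega) (by omega) (by omega) (by omega)
  rw [pow_one] at h11
  have h12 := hS.1 (m + 1 - 2 * M) (by omega) (by omega)
  have h13 : (w (J + 1) - A) * H (us w A κ) (m + 1 - 2 * M) ≤ A / 4 * H (us w A κ) (m - J) := by
    calc (w (J + 1) - A) * H (us w A κ) (m + 1 - 2 * M)
        ≤ (ρ * (A / 4)) * H (us w A κ) (m + 1 - 2 * M) := by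
          have := h.hρ3
          gcongr
      _ = A / 4 * (ρ * H (us w A κ) (m + 1 - 2 * M)) := by ring
      _ ≤ _ := by gcongr
  have h14 : (1 - w (J + 1)) * H (us w A κ) (m - J) ≤ (1 - A) * H (us w A κ) (m - J) := by
    have := w_ge_A h (J + 1)
    gcongr
  rw [h6, h8]
  have h15 : (1 - A / 2) * H (us w A κ) (m - J) = (1 - A) * H (us w A κ) (m - J) +
      A / 4 * H (us w A κ) (m - J) + A / 4 * H (us w A κ) (m - J) := by ring
  rw [h15]
  linarith

lemma step_a (h : Hy w A ρ c C δ M J1 J κ) {m : ℕ} (hm : 4 * M ≤ m + 1)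
    (hS1 : S3 (H (us w A κ)) ρ M (m + 1)) :
    H (us w A κ) (m + 2) ≤ H (us w A κ) (m + 1) := by
  have hS := hS1.mono (Nat.le_succ m)
  have hM := h.hM
  have hρ0 := h.hρ0
  have hJ := h.hJ
  have hJ' := h.hJ'
  have hA0 := A_pos h
  have hA1 := A_le_one h
  have hy := h.hy
  have hc0 := h.hc0
  have hHi := hS.1 (m - J) (by omega) (by omega)
  have h1 := f_split h m
  rw [h.hwA (m + 2) (by omega), h.hwA (m + 1) (by omega), sub_self, zero_add] at h1
  have hdec := decay h hm hS
  set g := H (us w A κ) with hg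
  have h2 : c * (1 - w 1) * (A / 2 * g (m - J)) ≤
      ∑ k ∈ range (m + 1), (w k - w (k + 1)) * (g (m - k) - g (m + 1 - k)) := by
    have tel : ∑ k ∈ range (J + 1), (g (m - k) - g (m + 1 - k)) = g (m - J) - g (m + 1) := by
      have := Finset.sum_range_sub (fun k => g (m + 1 - k)) (J + 1)
      rw [Nat.sub_zero, show m + 1 - (J + 1) = m - J by omega] at this
      rw [← this]
      apply Finset.sum_congr rfl
      intro k _
      rw [show m + 1 - (k + 1) = m - k by omega]
    have hnn : ∀ k, k ≤ m → 0 ≤ g (m - k) - g (m + 1 - k) := by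
      intro k hk
      rcases Nat.lt_or_ge k m with h3 | h3
      · have := hS1.2.1 (m - k) (by omega) (by omega)
        rw [show m + 1 - k = m - k + 1 by omega]
        linarith
      · have hkm : k = m := by omega
        subst hkm
        rw [Nat.sub_self, show k + 1 - k = 1 by omega, hg, H_zero _ (us_zero h), H_one' h]
        have := h.hwpos 1
        linarith
    calc c * (1 - w 1) * (A / 2 * g (m - J)) ≤ c * (1 - w 1) * (g (m - J) - g (m + 1)) := by
          have : A / 2 * g (m - J) ≤ g (m - J) - g (m + 1) := by linarith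
          gcongr
      _ ≤ (w J - w (J + 1)) * (g (m - J) - g (m + 1)) := by
          have g1 := h.hc1
          have g2 : 0 ≤ g (m - J) - g (m + 1) := by
            have : 0 < A / 2 * g (m - J) := by positivity
            linarith
          gcongr
      _ = ∑ k ∈ range (J + 1), (w J - w (J + 1)) * (g (m - k) - g (m + 1 - k)) := by
          rw [← tel, Finset.mul_sum]
      _ ≤ ∑ k ∈ range (J + 1), (w k - w (k + 1)) * (g (m - k) - g (m + 1 - k)) := by
          apply Finset.sum_le_sum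
          intro k hk
          rw [Finset.mem_range] at hk
          have g1 := D_anti h (show k ≤ J by omega)
          simp only at g1
          have g2 := hnn k (by omega)
          gcongr
      _ ≤ _ := by
          apply Finset.sum_le_sum_of_subset_of_nonneg
          · intro k hk
            rw [Finset.mem_range] at hk ⊢
            omega
          · intro k hk _
            rw [Finset.mem_range] at hk
            exact mul_nonneg (D_nonneg h k) (hnn k (by omega))
  have hb := sum_bd h (a := fun k => κ (k + 2) - 2 * κ (k + 1) + κ k)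
      (β := δ * (1 - w 1) ^ 2) (K := g (m - J) / ρ ^ 6) m
      (mul_nonneg h.hδ0 (by positivity)) (by positivity) h.hd2
      (fun k hk => by
        by_contra hcon
        rw [not_and_or, not_le, not_lt] at hcon
        rcases hcon with hcon | hcon
        · exact hk (by rw [h.hκ1 _ (by omega), h.hκ1 _ (by omega), h.hκ1 _ (by omega)]; ring)
        · exact hk (by rw [h.hκ2 _ (by omega), h.hκ2 _ (by omega), h.hκ2 _ (by omega)]; ring))
      (fun k hk => (hS.1 (m - k) (by omega) (by omega)).le)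
      (fun k hk1 hk2 hk3 => by
        rw [le_div_iff₀ (by positivity), mul_comm]
        exact chainH h hS 6 (m - J) (m - k) (by omega) (by omega) (by omega) (by omega))
      (fun hk1 hk2 => by
        rw [le_div_iff₀ (by positivity), mul_comm, ← H_one' h]
        exact chainH h hS 6 (m - J) 1 (by omega) (by omega) (by omega) (by omega))
  rw [← hg] at hb
  set Sg := ∑ k ∈ range (m + 1), (κ (k + 2) - 2 * κ (k + 1) + κ k) * g (m - k) with hSg
  have h3 : |Sg| ≤ c / 2 * (1 - w 1) * g (m - J) := by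
    have e1 : (C + 2) * (δ * (1 - w 1) ^ 2 * (g (m - J) / ρ ^ 6)) =
        ((C + 2) * δ / ρ ^ 6) * ((1 - w 1) * g (m - J)) * (1 - w 1) := by ring
    rw [e1] at hb
    have h4 := le_of_mul_le_mul_right hb hy
    refine h4.trans ?_
    have h5 : (C + 2) * δ / ρ ^ 6 ≤ c / 2 := by
      rw [div_le_iff₀ (by positivity)]
      calc (C + 2) * δ ≤ c * ρ ^ 6 / 2 := h.hs2
        _ = c / 2 * ρ ^ 6 := by ring
    calc (C + 2) * δ / ρ ^ 6 * ((1 - w 1) * g (m - J)) ≤ c / 2 * ((1 - w 1) * g (m - J)) := by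
          gcongr
      _ = _ := by ring
  have h5 : -(A * (c / 2 * (1 - w 1) * g (m - J))) ≤ A * Sg := by
    have : -(c / 2 * (1 - w 1) * g (m - J)) ≤ Sg := by
      have := neg_abs_le Sg
      linarith
    calc -(A * (c / 2 * (1 - w 1) * g (m - J))) = A * (-(c / 2 * (1 - w 1) * g (m - J))) := by ring
      _ ≤ _ := by gcongr
  have h6 : c * (1 - w 1) * (A / 2 * g (m - J)) = A * (c / 2 * (1 - w 1) * g (m - J)) := by ring
  linarith

lemma S3_all (h : Hy w A ρ c C δ M J1 J κ) : ∀ n, 4 * M ≤ n → S3 (H (us w A κ)) ρ M n := by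
  have hM := h.hM
  have hρ0 := h.hρ0
  intro n hn
  induction n, hn using Nat.le_induction with
  | base =>
    exact ⟨fun j h1 h2 => base_pos h h1 h2, fun j h1 h2 => H_anti_init h h2,
      fun j h1 h2 => base_harnack h h1 h2⟩
  | succ n hn ih =>
    obtain ⟨m, rfl⟩ : ∃ m, n = m + 1 := ⟨n - 1, by omega⟩
    have h1 := step_a h hn ih
    have h2 := step_h h hn ih
    have h3 := ih.1 (m + 1 + 1 - M) (by omega) (by omega)
    refine ⟨fun j hj1 hj2 => ?_, fun j hj1 hj2 => ?_, fun j hj1 hj2 => ?_⟩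
    · rcases Nat.lt_or_ge (m + 1) j with hj | hj
      · have : j = m + 1 + 1 := by omega
        subst this
        exact lt_of_lt_of_le (mul_pos hρ0 h3) h2
      · exact ih.1 j hj1 hj
    · rcases Nat.lt_or_ge (m + 1) (j + 1) with hj | hj
      · have : j = m + 1 := by omega
        subst this
        exact h1
      · exact ih.2.1 j hj1 hj
    · rcases Nat.lt_or_ge (m + 1) (j + M) with hj | hj
      · have : j + M = m + 1 + 1 := by omega
        rw [this]
        have h5 : j = m + 1 + 1 - M := by omega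
        rw [h5]
        exact h2
      · exact ih.2.2 j hj1 hj

theorem isRenewal_us (h : Hy w A ρ c C δ M J1 J κ) : IsRenewal (us w A κ) := by
  refine ⟨us_zero h, fun k => H (us w A κ) k - H (us w A κ) (k + 1), fun k => ?_, fun n => ?_,
    fun n => renewal _ (us_zero h) n⟩
  · show 0 ≤ H (us w A κ) k - H (us w A κ) (k + 1)
    rcases Nat.eq_zero_or_pos k with h0 | h0
    · subst h0
      rw [H_zero _ (us_zero h), zero_add, H_one' h]
      have := h.hwpos 1
      linarith
    · have := (S3_all h (4 * M + k + 1) (by omega)).2.1 k h0 (by omega)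
      linarith
  · rw [Finset.sum_range_sub', H_zero _ (us_zero h)]
    have := H_nn h (S3_all h (4 * M + n) (by omega)) (j := n) (by omega)
    linarith

end Main

end Pool.Agent.Y771.IZ
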