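import Pool.Agent.Results.MP_0f714a_pr.NotInI0

set_option autoImplicit false

open Finset Filter Topology MeasureTheory
open scoped NNReal

namespace Pool.Agent.Y771.IZ

open Pool.Agent.Results.MP_0f714a_pr.NotInI0

/-- four inequalities for p-functions -/
lemma four {p : ℝ≥0 → ℝ} (h : IsPFunction p) (s t u : ℝ≥0) :
    0 ≤ p (s + t + u) - p s * p (t + u) - p (s + t) * p u + p s * p t * p u ∧
    p s * p t ≤ p (s + t) ∧ p (s + t) ≤ 1 - p s + p s * p t := by
  obtain ⟨h0, h1, Ω, mΩ, P, E, hP, hE, hreg⟩ := h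
  have f1 : ∀ t, P.real (E t) = p t := by
    intro t
    have := hreg 0 (fun _ => t) (fun i j _ => le_rfl)
    have g1 : (⋂ _ : Fin (0 + 1), E t) = E t := by
      ext w
      rw [Set.mem_iInter]
      exact ⟨fun h => h 0, fun h _ => h⟩
    have g2 : (⋂ _ : Fin 0, E (t - t)) = Set.univ := by
      ext w
      rw [Set.mem_iInter]
      exact ⟨fun _ => Set.mem_univ _, fun _ i => i.elim0⟩
    rw [g1, g2] at this
    rw [this]
    simp
  have f2 : ∀ a b : ℝ≥0, a ≤ b → P.real (E a ∩ E b) = p a * p (b - a) := by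
    intro a b hab
    have := hreg 1 ![a, b] (by
      intro i j hij
      fin_cases i <;> fin_cases j <;> simp_all)
    have g1 : (⋂ i, E (![a, b] i)) = E a ∩ E b := by
      ext w; simp [Fin.forall_fin_two]
    have g2 : (⋂ i : Fin 1, E (![a, b] i.succ - ![a, b] 0)) = E (b - a) := by
      ext w; simp
    rw [g1, g2, f1] at this
    exact this
  have s1 : s ≤ s + t := le_self_add
  have s2 : s + t ≤ s + t + u := le_self_add
  have e1 : s + t - s = t := by rw [add_tsub_cancel_left]
  have e2 : s + t + u - s = t + u := by rw [add_assoc, add_tsub_cancel_left]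
  have e3 : s + t + u - (s + t) = u := by rw [add_tsub_cancel_left]
  have e4 : t + u - t = u := by rw [add_tsub_cancel_left]
  have f3 : P.real (E s ∩ E (s + t) ∩ E (s + t + u)) = p s * p t * p u := by
    have := hreg 2 ![s, s + t, s + t + u] (by
      intro i j hij
      fin_cases i <;> fin_cases j <;> simp_all [s1.trans s2])
    have g1 : (⋂ i, E (![s, s + t, s + t + u] i)) = E s ∩ E (s + t) ∩ E (s + t + u) := by
      ext w; simp [Fin.forall_fin_succ, and_assoc]
    have g2 : (⋂ i : Fin 2, E (![s, s + t, s + t + u] i.succ - ![s, s + t, s + t + u] 0)) =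
        E t ∩ E (t + u) := by
      ext w; simp [Fin.forall_fin_two, e1, e2]
    rw [g1, g2, f2 t (t + u) le_self_add, e4] at this
    rw [this]
    simp
    ring
  have k1 := f2 s (s + t + u) (s1.trans s2)
  rw [e2] at k1
  have k2 := f2 (s + t) (s + t + u) s2
  rw [e3] at k2
  have k0 := f2 s (s + t) s1
  rw [e1] at k0
  refine ⟨?_, ?_, ?_⟩
  · have k3 : P.real ((E s ∩ E (s + t + u)) ∪ (E (s + t) ∩ E (s + t + u))) +
        P.real ((E s ∩ E (s + t + u)) ∩ (E (s + t) ∩ E (s + t + u))) =
        P.real (E s ∩ E (s + t + u)) + P.real (E (s + t) ∩ E (s + t + u)) :=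
      measureReal_union_add_inter ((hE _).inter (hE _))
    have k4 : (E s ∩ E (s + t + u)) ∩ (E (s + t) ∩ E (s + t + u)) =
        E s ∩ E (s + t) ∩ E (s + t + u) := by
      ext w; simp only [Set.mem_inter_iff]; tauto
    have k5 : P.real ((E s ∩ E (s + t + u)) ∪ (E (s + t) ∩ E (s + t + u))) ≤
        P.real (E (s + t + u)) := by
      refine measureReal_mono (fun w hw => ?_) (measure_ne_top _ _)
      rcases hw with hw | hw
      · exact hw.2
      · exact hw.2
    rw [k4, f3, k1, k2] at k3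
    rw [f1] at k5
    linarith
  · rw [← k0, ← f1 (s + t)]
    exact measureReal_mono Set.inter_subset_right (measure_ne_top _ _)
  · have k3 : P.real (E s ∪ E (s + t)) + P.real (E s ∩ E (s + t)) =
        P.real (E s) + P.real (E (s + t)) := measureReal_union_add_inter (hE _)
    have k5 : P.real (E s ∪ E (s + t)) ≤ 1 := measureReal_le_one
    rw [k0, f1, f1] at k3
    linarith

lemma continuous_of_std {p : ℝ≥0 → ℝ} (h : IsStd p) : Continuous p := by
  have h01 := h.1.2.1
  have key : ∀ x y : ℝ≥0, |p (x + y) - p x| ≤ 1 - p y := by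
    intro x y
    obtain ⟨-, a1, a2⟩ := four h.1 y x 0
    have b1 := h01 x
    have b2 := h01 y
    rw [add_comm x y, abs_le]
    constructor <;> nlinarith
  rw [continuous_iff_continuousAt]
  intro x
  have hx : Tendsto (fun y : ℝ≥0 => 1 - p (nndist y x)) (𝓝 x) (𝓝 0) := by
    have h1 : Tendsto (fun y : ℝ≥0 => nndist y x) (𝓝 x) (𝓝 0) := by
      have : Continuous (fun y : ℝ≥0 => nndist y x) := by fun_prop
      have := this.tendsto x
      rwa [nndist_self] at this
    have h2 := (h.2.comp h1).const_sub 1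
    rw [sub_self] at h2
    exact h2
  rw [ContinuousAt, tendsto_iff_dist_tendsto_zero]
  refine squeeze_zero (fun _ => dist_nonneg) (fun y => ?_) hx
  rw [Real.dist_eq]
  rcases le_total x y with h1 | h1
  · have h2 := key x (y - x)
    rw [add_tsub_cancel_of_le h1] at h2
    have h3 : nndist y x = y - x := by
      rw [NNReal.nndist_eq, tsub_eq_zero_of_le h1]
      simp
    rw [h3]; exact h2
  · have h2 := key y (x - y)
    rw [add_tsub_cancel_of_le h1, abs_sub_comm] at h2
    have h3 : nndist y x = x - y := by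
      rw [NNReal.nndist_eq, tsub_eq_zero_of_le h1]
      simp
    rw [h3]; exact h2

lemma pos_of_std {p : ℝ≥0 → ℝ} (h : IsStd p) (t : ℝ≥0) : 0 < p t := by
  have key : ∀ n : ℕ, ∀ x : ℝ≥0, 0 < p x → 0 < p (2 ^ n * x) := by
    intro n
    induction n with
    | zero => intro x hx; simpa using hx
    | succ n ih =>
      intro x hx
      have h1 := ih x hx
      obtain ⟨-, a1, -⟩ := four h.1 (2 ^ n * x) (2 ^ n * x) 0
      have e : (2 : ℝ≥0) ^ (n + 1) * x = 2 ^ n * x + 2 ^ n * x := by ring
      rw [e]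
      exact lt_of_lt_of_le (mul_pos h1 h1) a1
  have h1 : Tendsto (fun n : ℕ => t / 2 ^ n) atTop (𝓝 0) := by
    have h2 : Tendsto (fun n : ℕ => (1 / 2 : ℝ≥0) ^ n) atTop (𝓝 0) := by
      apply tendsto_pow_atTop_nhds_zero_of_lt_one (by positivity)
      rw [div_lt_one (by norm_num)]
      norm_num
    have h3 := h2.const_mul t
    rw [mul_zero] at h3
    refine h3.congr (fun n => ?_)
    rw [one_div, inv_pow, div_eq_mul_inv]
  have h2 := h.2.comp h1
  have h3 : ∀ᶠ n in atTop, (1 / 2 : ℝ) < p (t / 2 ^ n) := h2.eventually (lt_mem_nhds (by norm_num))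
  obtain ⟨n, hn⟩ := h3.exists
  have h4 := key n (t / 2 ^ n) (by linarith)
  have e : (2 : ℝ≥0) ^ n * (t / 2 ^ n) = t := by
    field_simp
  rwa [e] at h4

lemma exp_neg_le (a : ℝ) (ha : 0 ≤ a) : Real.exp (-a) ≤ 1 - a + a ^ 2 := by
  have h1 := Real.add_one_le_exp a
  have h2 : Real.exp (-a) * Real.exp a = 1 := by rw [← Real.exp_add]; simp
  have h3 : 0 < Real.exp (-a) := Real.exp_pos _
  have h4 : Real.exp (-a) * (1 + a) ≤ 1 := by nlinarith
  have h5 : 1 ≤ (1 - a + a ^ 2) * (1 + a) := by
    have : 0 ≤ a ^ 3 := by positivity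
    nlinarith
  have h6 : 0 < 1 + a := by linarith
  exact le_of_mul_le_mul_right (h4.trans h5) h6

/-- the exponent of an infinitely divisible standard p-function has decreasing increments -/
theorem wright {p : ℝ≥0 → ℝ} (hp : IsStd p) (hd : InfDiv p) (s t u : ℝ≥0) :
    -Real.log (p (s + t + u)) + -Real.log (p t) ≤
      -Real.log (p (s + t)) + -Real.log (p (t + u)) := by
  set φ : ℝ≥0 → ℝ := fun t => -Real.log (p t) with hφ
  have hφ0 : ∀ t, 0 ≤ φ t := by
    intro t
    have := Real.log_nonpos (hp.1.2.1 t).1 (hp.1.2.1 t).2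
    simp only [hφ]; linarith
  have hpφ : ∀ t, p t = Real.exp (-φ t) := by
    intro t
    simp only [hφ, neg_neg]
    rw [Real.exp_log (pos_of_std hp t)]
  show φ (s + t + u) + φ t ≤ φ (s + t) + φ (t + u)
  by_contra hcon
  push Not at hcon
  set x := φ (s + t + u) with hx
  set z := φ s + φ t + φ u with hz
  have hz0 : 0 ≤ z := by
    have := hφ0 s
    have := hφ0 t
    have := hφ0 u
    linarith
  have hx0 : 0 ≤ x := hφ0 _
  set η := x + φ t - (φ (s + t) + φ (t + u)) with hη
  have hη0 : 0 < η := by linarith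
  obtain ⟨n, hn⟩ := exists_nat_gt ((x ^ 2 + z ^ 2) / η)
  have hn0 : (0 : ℝ) < n := lt_of_le_of_lt (by positivity) hn
  have hn1 : 1 ≤ n := by
    have : 0 < n := by exact_mod_cast hn0
    omega
  obtain ⟨q, hq, hqn⟩ := hd n hn1
  have root : ∀ t, q t = Real.exp (-(φ t / n)) := by
    intro t
    have h2 : Real.exp (-(φ t / n)) ^ n = p t := by
      rw [← Real.exp_nat_mul, hpφ]
      congr 1
      field_simp
    have h3 := hqn t
    rw [← h2] at h3
    exact (pow_left_inj₀ (hq.1.2.1 t).1 (Real.exp_pos _).le (by omega)).mp h3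
  obtain ⟨key, -, -⟩ := four hq.1 s t u
  simp only [root] at key
  rw [← Real.exp_add, ← Real.exp_add, ← Real.exp_add, ← Real.exp_add] at key
  have g1 := exp_neg_le (x / n) (by positivity)
  have g2 := exp_neg_le (z / n) (by positivity)
  have g3 := Real.add_one_le_exp (-(φ s / n) + -(φ (t + u) / n))
  have g4 := Real.add_one_le_exp (-(φ (s + t) / n) + -(φ u / n))
  have e1 : -(φ s / n) + -(φ t / n) + -(φ u / n) = -(z / n) := by rw [hz]; ring
  rw [e1] at key
  have g5 : 0 ≤ -(η / n) + (x ^ 2 + z ^ 2) / n ^ 2 := by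
    have e2 : -(η / n) + (x ^ 2 + z ^ 2) / n ^ 2 =
        (1 - x / n + (x / n) ^ 2) - (-(φ s / n) + -(φ (t + u) / n) + 1)
          - (-(φ (s + t) / n) + -(φ u / n) + 1) + (1 - z / n + (z / n) ^ 2) := by
      rw [hη, hz]; ring
    rw [e2]
    linarith
  have g6 : η * n ≤ x ^ 2 + z ^ 2 := by
    have h1 : 0 ≤ (-(η / n) + (x ^ 2 + z ^ 2) / n ^ 2) * (n : ℝ) ^ 2 := by positivity
    have h2 : (-(η / n) + (x ^ 2 + z ^ 2) / n ^ 2) * (n : ℝ) ^ 2 = -(η * n) + (x ^ 2 + z ^ 2) := by
      field_simp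
    linarith
  rw [div_lt_iff₀ hη0] at hn
  linarith

/-- exponentials are in `I₀`: every factor of a multiplicative function is infinitely divisible -/
theorem infDiv_factor_of_mul {p : ℝ≥0 → ℝ} (hp : ∀ s t, p (s + t) = p s * p t)
    {q : ℝ≥0 → ℝ} (hq : IsFactor q p) : InfDiv q := by
  obtain ⟨hq1, r, hr, hpr⟩ := hq
  have hmul : ∀ s t, q (s + t) = q s * q t := by
    intro s t
    obtain ⟨-, a1, -⟩ := four hq1.1 s t 0
    obtain ⟨-, b1, -⟩ := four hr.1 s t 0
    have c1 := hp s t
    rw [hpr, hpr, hpr] at c1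
    have hqs := pos_of_std hq1 s
    have hqt := pos_of_std hq1 t
    have hrs := pos_of_std hr s
    have hrt := pos_of_std hr t
    have hqst := pos_of_std hq1 (s + t)
    refine le_antisymm ?_ a1
    have d1 : q (s + t) * (r s * r t) ≤ (q s * q t) * (r s * r t) := by
      calc q (s + t) * (r s * r t) ≤ q (s + t) * r (s + t) := by gcongr
        _ = (q s * q t) * (r s * r t) := by rw [c1]; ring
    exact le_of_mul_le_mul_right d1 (mul_pos hrs hrt)
  intro n hn
  refine ⟨fun t => q (1 / n * t), hq1.scale _, fun t => ?_⟩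
  have hpow : ∀ m : ℕ, ∀ x, q x ^ m = q (m * x) := by
    intro m
    induction m with
    | zero => intro x; simp [hq1.1.1]
    | succ m ih =>
      intro x
      rw [pow_succ, ih, ← hmul]
      congr 1
      push_cast
      ring
  show q (1 / n * t) ^ n = q t
  rw [hpow]
  congr 1
  have : (n : ℝ≥0) ≠ 0 := by
    have : n ≠ 0 := by omega
    exact_mod_cast this
  field_simp

end Pool.Agent.Y771.IZ
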