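import Pool.Agent.Y771.IZ.Wri

set_option autoImplicit false

open Finset Filter Topology MeasureTheory
open scoped NNReal

namespace Pool.Agent.Y771.IZ

open Pool.Agent.Results.MP_0f714a_pr.NotInI0

/-- rescaling -/
lemma Cc.scale_half {φ : ℝ → ℝ} (h : Cc φ) (d : ℝ≥0) : Cc (fun x => φ (d * x) / 2) := by
  have hd : (0 : ℝ) ≤ d := d.2
  refine ⟨by simp [h.zero], ⟨convex_Ici 0, fun a ha b hb α β hα hβ hαβ => ?_⟩, ?_, ?_⟩
  · have ha' : (0 : ℝ) ≤ a := ha
    have hb' : (0 : ℝ) ≤ b := hb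
    have h1 := h.conc.2 (x := d * a) (y := d * b) (Set.mem_Ici.mpr (by positivity))
      (Set.mem_Ici.mpr (by positivity)) hα hβ hαβ
    simp only [smul_eq_mul] at h1 ⊢
    have e : (d : ℝ) * (α * a + β * b) = α * (d * a) + β * (d * b) := by ring
    rw [e]
    linarith
  · intro a ha b hb hab
    have ha' : (0 : ℝ) ≤ a := ha
    have hb' : (0 : ℝ) ≤ b := hb
    have h1 := h.mono (a := d * a) (b := d * b) (Set.mem_Ici.mpr (by positivity))
      (Set.mem_Ici.mpr (by positivity)) (by gcongr)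
    show φ (d * a) / 2 ≤ φ (d * b) / 2
    linarith
  · have h1 : Continuous (fun t : ℝ≥0 => φ ((d * t : ℝ≥0) : ℝ)) :=
      h.cont.comp (continuous_const.mul continuous_id)
    have h2 := h1.div_const 2
    refine h2.congr (fun t => ?_)
    push_cast
    rfl

/-- the perturbed function is not infinitely divisible -/
lemma not_infDiv_pert {ψ : ℝ → ℝ} {L a : ℝ} (h : Nice ψ L a) {ε : ℝ} {K : ℝ → ℝ}
    (hK : KHyp ε K) (hK0 : 0 < K (5 / 2))
    (hstd : IsStd (fun t : ℝ≥0 => ex ψ t * (1 + K t))) :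
    ¬ InfDiv (fun t : ℝ≥0 => ex ψ t * (1 + K t)) := by
  intro hd
  have h1 := wright hstd hd (1 / 2) 2 (1 / 2)
  have e1 : (((1 / 2 + 2 + 1 / 2 : ℝ≥0) : ℝ≥0) : ℝ) = 3 := by push_cast; norm_num
  have e2 : ((2 : ℝ≥0) : ℝ) = 2 := by norm_num
  have e3 : (((1 / 2 + 2 : ℝ≥0) : ℝ≥0) : ℝ) = 5 / 2 := by push_cast; norm_num
  have e4 : (((2 + 1 / 2 : ℝ≥0) : ℝ≥0) : ℝ) = 5 / 2 := by push_cast; norm_num
  simp only [ex, e1, e2, e3, e4] at h1
  rw [h.one 3 (by norm_num), h.one 2 (by norm_num), h.one (5 / 2) (by norm_num),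
    hK.h2 3 le_rfl, hK.h1 2 le_rfl, add_zero, mul_one, Real.log_exp,
    Real.log_mul (Real.exp_pos _).ne' (by linarith), Real.log_exp] at h1
  have := Real.log_pos (show 1 < 1 + K (5 / 2) by linarith)
  linarith

/-- an exponent which is constant exactly from some point on -/
theorem notMemI0_cut {φ : ℝ → ℝ} (h : Cc φ) {d : ℝ≥0} {L a : ℝ} (hd : 0 < d)
    (h1 : ∀ x, (d : ℝ) ≤ x → φ x = L) (h2 : ∀ x : ℝ, 0 ≤ x → x < d → φ x < L)
    (h3 : ∀ x, 0 ≤ x → φ x ≤ a * x) : ¬ MemI0 (ex φ) := by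
  have hd' : (0 : ℝ) < d := hd
  have hN : Nice (fun x => φ (d * x) / 2) (L / 2) (a * d / 2) := by
    refine ⟨h.scale_half d, fun x hx => ?_, fun x hx0 hx => ?_, fun x hx => ?_⟩
    · show φ (d * x) / 2 = L / 2
      rw [h1 _ (by nlinarith)]
    · show φ (d * x) / 2 < L / 2
      have := h2 (d * x) (by positivity) (by nlinarith)
      linarith
    · show φ (d * x) / 2 ≤ a * d / 2 * x
      have := h3 (d * x) (by positivity)
      nlinarith
  set ψ : ℝ → ℝ := fun x => φ (d * x) / 2 with hψ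
  obtain ⟨ε, hε, hstd⟩ := hN.pert
  obtain ⟨K, hK1, hK2, hK3, hK4⟩ := exists_pair hε
  have hq := (hstd _ hK1).scale (1 / d)
  have hr := (hstd _ hK2).scale (1 / d)
  rintro ⟨-, hall⟩
  have hfac : IsFactor (fun t : ℝ≥0 => ex ψ (1 / d * t) * (1 + K ((1 / d * t : ℝ≥0) : ℝ)))
      (ex φ) := by
    refine ⟨hq, _, hr, fun t => ?_⟩
    have h4 : ex φ t = ex ψ (1 / d * t) * ex ψ (1 / d * t) := by
      unfold ex
      rw [← Real.exp_add]
      congr 1
      have e : (d : ℝ) * ((1 / d * t : ℝ≥0) : ℝ) = t := by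
        push_cast
        field_simp
      simp only [hψ, e]
      ring
    have h5 : (1 + K ((1 / d * t : ℝ≥0) : ℝ)) ≠ 0 := by
      have := hK3 ((1 / d * t : ℝ≥0) : ℝ)
      linarith
    have h7 : (1 + K ((1 / d * t : ℝ≥0) : ℝ)) *
        (1 + (1 / (1 + K ((1 / d * t : ℝ≥0) : ℝ)) - 1)) = 1 := by
      rw [add_sub_cancel, mul_one_div_cancel h5]
    rw [h4]
    linear_combination (-(ex ψ (1 / d * t) * ex ψ (1 / d * t))) * h7
  have hdiv := (hall _ hfac).scale d
  have h6 : (fun t : ℝ≥0 => ex ψ (1 / d * (d * t)) * (1 + K ((1 / d * (d * t) : ℝ≥0) : ℝ))) =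
      fun t : ℝ≥0 => ex ψ t * (1 + K t) := by
    funext t
    have e : 1 / d * (d * t) = t := by rw [← mul_assoc, one_div_mul_cancel hd.ne', one_mul]
    rw [e]
  rw [h6] at hdiv
  exact not_infDiv_pert hN hK1 hK4 (hstd _ hK1) hdiv

/-- nonlinear exponents -/
theorem notMemI0_of_nonlinear {φ : ℝ → ℝ} (h : Cc φ) {s t : ℝ} (hs : 0 < s) (hst : s < t)
    (hlt : φ t * s < φ s * t) : ¬ MemI0 (ex φ) := by
  obtain ⟨φ1, φ2, d, L, a, c1, c2, hsum, hd, h1, h2, h3⟩ := decomp h hs hst hlt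
  have h4 := notMemI0_mul c1.isStd c2.isStd (notMemI0_cut c1 hd h1 h2 h3)
  have e : ex φ = fun t => ex φ1 t * ex φ2 t := by
    funext x
    rw [← ex_add]
    unfold ex
    rw [hsum]
  rw [e]
  exact h4

theorem memI0_exp (lam : ℝ≥0) : MemI0 (fun t : ℝ≥0 => Real.exp (-(lam * t : ℝ))) := by
  have hc : Cc (fun t => (lam : ℝ) * t) := by
    refine ⟨by simp, ⟨convex_Ici 0, fun a _ b _ α β _ _ _ => ?_⟩, fun a _ b _ hab => ?_, ?_⟩
    · simp only [smul_eq_mul]
      apply le_of_eq; ring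
    · show (lam : ℝ) * a ≤ lam * b
      gcongr
    · fun_prop
  have h1 : IsStd (fun t : ℝ≥0 => Real.exp (-(lam * t : ℝ))) := hc.isStd
  refine ⟨h1, fun q hq => infDiv_factor_of_mul (fun s t => ?_) hq⟩
  rw [← Real.exp_add]
  congr 1
  push_cast
  ring

/-- The class `I₀` consists exactly of the exponentials. -/
theorem memI0_iff (p : ℝ≥0 → ℝ) :
    MemI0 p ↔ ∃ lam : ℝ≥0, ∀ t : ℝ≥0, p t = Real.exp (-(lam * t : ℝ)) := by
  constructor
  · intro hp
    have hd : InfDiv p := hp.2 p ⟨hp.1, fun _ => 1, isStd_one, fun t => by ring⟩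
    obtain ⟨φ, hc, rfl⟩ := exists_exponent hp.1 hd
    have hlin : ∀ s t : ℝ, 0 < s → s < t → φ s * t ≤ φ t * s := by
      intro s t hs hst
      by_contra hcon
      push Not at hcon
      exact notMemI0_of_nonlinear hc hs hst hcon hp
    have hlin' : ∀ s t : ℝ, 0 < s → s < t → φ t * s ≤ φ s * t := by
      intro s t hs hst
      have h1 := hc.conc.slope_anti_adjacent (x := 0) (y := s) (z := t)
        (Set.mem_Ici.mpr le_rfl) (Set.mem_Ici.mpr (by linarith)) hs hst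
      rw [hc.zero, sub_zero, sub_zero, div_le_div_iff₀ (by linarith) hs] at h1
      linarith
    refine ⟨⟨φ 1, hc.nonneg (by norm_num)⟩, fun t => ?_⟩
    unfold ex
    congr 1
    show -φ t = -(φ 1 * t)
    rw [neg_inj]
    rcases eq_or_lt_of_le t.2 with h0 | h0
    · have : (t : ℝ) = 0 := h0.symm
      rw [this, hc.zero, mul_zero]
    · have h0' : (0 : ℝ) < t := h0
      rcases lt_trichotomy (t : ℝ) 1 with h1 | h1 | h1
      · have a1 := hlin t 1 h0' h1
        have a2 := hlin' t 1 h0' h1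
        linarith
      · rw [h1, mul_one]
      · have a1 := hlin 1 t one_pos h1
        have a2 := hlin' 1 t one_pos h1
        linarith
  · rintro ⟨lam, h⟩
    have : p = fun t : ℝ≥0 => Real.exp (-(lam * t : ℝ)) := funext h
    rw [this]
    exact memI0_exp lam

end Pool.Agent.Y771.IZ
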