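import Pool.Agent.Y771.IZ.Cont

set_option autoImplicit false

open Finset Filter Topology MeasureTheory
open scoped NNReal

namespace Pool.Agent.Y771.IZ

open Pool.Agent.Results.MP_0f714a_pr.NotInI0

/-- concave exponents which are constant exactly from `1` on, with finite slope at `0` -/
structure Nice (ψ : ℝ → ℝ) (L a : ℝ) : Prop where
  cc : Cc ψ
  one : ∀ t, 1 ≤ t → ψ t = L
  lt : ∀ t, 0 ≤ t → t < 1 → ψ t < L
  lin : ∀ t, 0 ≤ t → ψ t ≤ a * t

lemma Nice.L_pos {ψ : ℝ → ℝ} {L a : ℝ} (h : Nice ψ L a) : 0 < L := by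
  have := h.lt 0 le_rfl (by norm_num)
  rwa [h.cc.zero] at this

lemma Nice.a_pos {ψ : ℝ → ℝ} {L a : ℝ} (h : Nice ψ L a) : 0 < a := by
  have h1 := h.L_pos
  have h2 := h.lin 1 (by norm_num)
  rw [h.one 1 le_rfl] at h2
  linarith

lemma Nice.le_L {ψ : ℝ → ℝ} {L a : ℝ} (h : Nice ψ L a) {t : ℝ} (ht : 0 ≤ t) : ψ t ≤ L := by
  rcases le_or_gt 1 t with h1 | h1
  · rw [h.one t h1]
  · exact (h.lt t ht h1).le

/-- lower bound of a decrement -/
lemma Nice.drop {ψ : ℝ → ℝ} {L a : ℝ} (h : Nice ψ L a) {s η : ℝ} (h0 : 0 ≤ s - η) (hη : 0 < η)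
    (hs : s < 1) : Real.exp (-L) * (η * ((L - ψ s) / (1 - s))) ≤
      Real.exp (-ψ (s - η)) - Real.exp (-ψ s) := by
  have h1 := h.cc.conc.slope_anti_adjacent (Set.mem_Ici.mpr h0)
    (Set.mem_Ici.mpr (show (0 : ℝ) ≤ 1 by norm_num)) (show s - η < s by linarith) hs
  rw [h.one 1 le_rfl, show s - (s - η) = η by ring, le_div_iff₀ hη] at h1
  have h2 : η * ((L - ψ s) / (1 - s)) ≤ ψ s - ψ (s - η) := by linarith
  have hs0 : 0 ≤ s := by linarith
  have h3 : 0 ≤ (L - ψ s) / (1 - s) :=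
    div_nonneg (by linarith [h.le_L hs0]) (by linarith)
  have h4 : Real.exp (-L) ≤ Real.exp (-ψ s) := by
    rw [Real.exp_le_exp]; linarith [h.le_L hs0]
  have h5 : Real.exp (-ψ (s - η)) = Real.exp (-ψ s) * Real.exp (ψ s - ψ (s - η)) := by
    rw [← Real.exp_add]; congr 1; ring
  have h6 := Real.add_one_le_exp (ψ s - ψ (s - η))
  calc Real.exp (-L) * (η * ((L - ψ s) / (1 - s)))
      ≤ Real.exp (-ψ s) * (ψ s - ψ (s - η)) := by gcongr
    _ ≤ Real.exp (-ψ s) * (Real.exp (ψ s - ψ (s - η)) - 1) :=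
        mul_le_mul_of_nonneg_left (by linarith) (Real.exp_pos _).le
    _ = _ := by rw [h5]; ring

lemma bern {w : ℕ → ℝ} (hpos : ∀ n, 0 < w n) (hlc : ∀ n, w (n + 1) ^ 2 ≤ w n * w (n + 2))
    (n : ℕ) : w 0 - w n ≤ n * (w 0 - w 1) := by
  have hanti : Antitone (fun k => w k - w (k + 1)) := by
    apply antitone_nat_of_succ_le
    intro k
    have h1 := hlc k
    have h2 := hpos k
    have h3 : 0 ≤ w k * (w (k + 2) - 2 * w (k + 1) + w k) := by
      nlinarith [sq_nonneg (w (k + 1) - w k)]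
    have h4 : 0 ≤ w (k + 2) - 2 * w (k + 1) + w k := by
      by_contra hcon
      push Not at hcon
      have := mul_neg_of_pos_of_neg h2 hcon
      linarith
    show w (k + 1) - w (k + 1 + 1) ≤ w k - w (k + 1)
    have e : w (k + 1 + 1) = w (k + 2) := rfl
    rw [e]
    linarith
  rw [← Finset.sum_range_sub' (fun k => w k) n]
  calc ∑ i ∈ range n, (w i - w (i + 1)) ≤ ∑ i ∈ range n, (w 0 - w (0 + 1)) :=
        Finset.sum_le_sum (fun i _ => hanti (Nat.zero_le i))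
    _ = n * (w 0 - w 1) := by
        rw [Finset.sum_const, Finset.card_range, nsmul_eq_mul]

lemma nice_hy {ψ : ℝ → ℝ} {L a : ℝ} (h : Nice ψ L a) {A ρ c B ε : ℝ} {T l M J1 J : ℕ}
    (hT : 1 ≤ T) (hl : 1 ≤ l) (hM : M = 2 * (T * l)) (hJ1 : J1 + 1 = 3 * (T * l))
    (hJ : J + 1 + l = 4 * (T * l)) (hA : A = Real.exp (-L)) (hρ0 : 0 < ρ)
    (hρ1 : 2 * ρ ≤ Real.exp (-ψ (1 / 2)) - Real.exp (-ψ (3 / 4)))
    (hρ2 : ρ * a ≤ A * ((L - ψ (3 / 4)) / (1 - 3 / 4)))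
    (hρ3 : Real.exp (-ψ (1 - 1 / (4 * T))) - A ≤ ρ * (A / 4)) (hc0 : 0 < c)
    (hc : c * a ≤ A * ((L - ψ (1 - 1 / (4 * T))) / (1 - (1 - 1 / (4 * T)))))
    (hB : B = 1 - A) {K : ℝ → ℝ} (hK : KHyp ε K) (hε0 : 0 ≤ ε)
    (hs1 : (a + 2) * (ε / B ^ 2) ≤ ρ ^ 7 / 4) (hs2 : (a + 2) * (ε / B ^ 2) ≤ c * ρ ^ 6 / 2) :
    Hy (fun n => Real.exp (-ψ ((n : ℝ) / ((2 * M : ℕ) : ℝ)))) A ρ c a (ε / B ^ 2) M J1 J
      (fun n => K ((n : ℝ) / ((2 * M : ℕ) : ℝ))) := by
  have hTl : 1 ≤ T * l := Nat.one_le_iff_ne_zero.mpr (by positivity)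
  have hTl' : l ≤ T * l := Nat.le_mul_of_pos_left l hT
  have hTr : (1 : ℝ) ≤ T := by exact_mod_cast hT
  have hlr : (1 : ℝ) ≤ l := by exact_mod_cast hl
  have hM1 : 1 ≤ M := by omega
  set N : ℝ := ((2 * M : ℕ) : ℝ) with hN
  have hNe : N = 4 * (T * l) := by rw [hN, hM]; push_cast; ring
  have hN4 : 4 ≤ N := by
    rw [hNe]
    have : (1 : ℝ) ≤ T * l := by exact_mod_cast hTl
    linarith
  have hN0 : 0 < N := by linarith
  have hLp := h.L_pos
  have hap := h.a_pos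
  have hA0 : 0 < A := by rw [hA]; exact Real.exp_pos _
  have hA1 : A < 1 := by rw [hA, Real.exp_lt_one_iff]; linarith
  have hB0 : 0 < B := by linarith
  have hB1 : B ≤ 1 := by linarith
  set w : ℕ → ℝ := fun n => Real.exp (-ψ ((n : ℝ) / N)) with hw
  have hw0 : w 0 = 1 := by simp [hw, h.cc.zero]
  have hwpos : ∀ n, 0 < w n := fun n => Real.exp_pos _
  have hlc : ∀ n, w (n + 1) ^ 2 ≤ w n * w (n + 2) := fun n => ex_lc h.cc (2 * M) n
  have hanti : ∀ n, w (n + 1) ≤ w n := fun n => ex_anti h.cc (2 * M) n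
  have hwA : ∀ n, 2 * M ≤ n → w n = A := by
    intro n hn
    simp only [hw]
    rw [h.one, hA]
    rw [one_le_div hN0, hN]
    exact_mod_cast hn
  have hw1 : w 1 = Real.exp (-ψ (1 / N)) := by simp [hw]
  have hyle : 1 - w 1 ≤ a / N := by
    rw [hw1]
    have h1 := Real.add_one_le_exp (-ψ (1 / N))
    have h2 := h.lin (1 / N) (by positivity)
    rw [mul_one_div] at h2
    linarith
  have hbern : B ≤ N * (1 - w 1) := by
    have h1 := bern hwpos hlc (2 * M)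
    rw [hw0, hwA _ le_rfl, ← hN] at h1
    linarith
  have hy : 0 < 1 - w 1 := by
    by_contra hcon
    push Not at hcon
    have : N * (1 - w 1) ≤ 0 := mul_nonpos_of_nonneg_of_nonpos hN0.le hcon
    linarith
  have hinv : 1 / N ≤ (1 - w 1) / B := by
    rw [div_le_div_iff₀ hN0 hB0]
    linarith
  have hinv0 : 0 < 1 / N := by positivity
  have hBB : 1 / B ≤ 1 / B ^ 2 := by
    apply one_div_le_one_div_of_le (by positivity)
    nlinarith
  have hfirst : ∀ n : ℕ, |K (((n + 1 : ℕ) : ℝ) / N) - K ((n : ℝ) / N)| ≤ ε * (1 / N) := by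
    intro n
    have h3 := hK.lip ((n : ℝ) / N) (((n + 1 : ℕ) : ℝ) / N)
    have h4 : ((n + 1 : ℕ) : ℝ) / N - (n : ℝ) / N = 1 / N := by
      push_cast; ring
    rw [h4, abs_of_pos hinv0] at h3
    exact h3
  have eM : (M : ℝ) / N = 1 / 2 := by
    rw [hN]; push_cast
    have : (0 : ℝ) < M := by exact_mod_cast hM1
    field_simp
  have eJ1 : ((J1 + 1 : ℕ) : ℝ) / N = 3 / 4 := by
    rw [hJ1, hNe]; push_cast
    field_simp
  have eJ1' : (J1 : ℝ) / N = 3 / 4 - 1 / N := by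
    rw [← eJ1]; push_cast; ring
  have eJ : ((J + 1 : ℕ) : ℝ) / N = 1 - 1 / (4 * T) := by
    have e1 : ((J + 1 : ℕ) : ℝ) = 4 * (T * l) - l := by
      have : ((J + 1 + l : ℕ) : ℝ) = ((4 * (T * l) : ℕ) : ℝ) := by rw [hJ]
      push_cast at this ⊢
      linarith
    rw [e1, hNe]
    field_simp
  have eJ' : (J : ℝ) / N = 1 - 1 / (4 * T) - 1 / N := by
    rw [← eJ]; push_cast; ring
  have hT4 : 0 < 1 / (4 * (T : ℝ)) := by positivity
  have hT4' : 1 / (4 * (T : ℝ)) ≤ 1 / 4 := by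
    apply one_div_le_one_div_of_le (by norm_num)
    linarith
  have hN4' : 1 / N ≤ 1 / 4 := one_div_le_one_div_of_le (by norm_num) hN4
  refine ⟨hw0, hwpos, hlc, hanti, hwA, hy, hM1, by omega, by omega, by omega, by omega, hρ0,
    ?_, ?_, ?_, hc0, ?_, ?_, ?_, ?_, ?_, ?_, ?_, hs1, hs2⟩
  · simp only [hw]
    rw [eM, eJ1]
    exact hρ1
  · simp only [hw] at hyle ⊢
    have h1 := h.drop (s := 3 / 4) (η := 1 / N) (by linarith) hinv0 (by norm_num)
    rw [eJ1, eJ1', ← hA] at *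
    calc ρ * (1 - Real.exp (-ψ (((1 : ℕ) : ℝ) / N))) ≤ ρ * (a / N) := by gcongr
      _ = (ρ * a) * (1 / N) := by ring
      _ ≤ (A * ((L - ψ (3 / 4)) / (1 - 3 / 4))) * (1 / N) := by gcongr
      _ = A * (1 / N * ((L - ψ (3 / 4)) / (1 - 3 / 4))) := by ring
      _ ≤ _ := h1
  · simp only [hw]
    rw [eJ]
    exact hρ3
  · simp only [hw] at hyle ⊢
    have h1 := h.drop (s := 1 - 1 / (4 * T)) (η := 1 / N) (by linarith) hinv0 (by linarith)
    rw [eJ, eJ', ← hA] at *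
    calc c * (1 - Real.exp (-ψ (((1 : ℕ) : ℝ) / N))) ≤ c * (a / N) := by gcongr
      _ = (c * a) * (1 / N) := by ring
      _ ≤ (A * ((L - ψ (1 - 1 / (4 * T))) / (1 - (1 - 1 / (4 * T))))) * (1 / N) := by gcongr
      _ = A * (1 / N * ((L - ψ (1 - 1 / (4 * T))) / (1 - (1 - 1 / (4 * T))))) := by ring
      _ ≤ _ := h1
  · have h1 : (2 * M : ℝ) = N := by rw [hN]; push_cast; ring
    rw [h1]
    calc N * (1 - w 1) ≤ N * (a / N) := by gcongr
      _ = a := by field_simp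
  · intro n hn
    apply hK.h1
    rw [div_le_iff₀ hN0, hN]
    have : (n : ℝ) ≤ ((4 * M : ℕ) : ℝ) := by exact_mod_cast hn
    push_cast at this ⊢
    linarith
  · intro n hn
    apply hK.h2
    rw [le_div_iff₀ hN0, hN]
    have : ((6 * M : ℕ) : ℝ) ≤ (n : ℝ) := by exact_mod_cast hn
    push_cast at this ⊢
    linarith
  · positivity
  · intro n
    refine (hfirst n).trans ?_
    calc ε * (1 / N) ≤ ε * ((1 - w 1) / B) := by gcongr
      _ = ε * (1 - w 1) * (1 / B) := by ring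
      _ ≤ ε * (1 - w 1) * (1 / B ^ 2) := by gcongr
      _ = ε / B ^ 2 * (1 - w 1) := by ring
  · intro n
    have h5 := hK.sec ((n : ℝ) / N) (1 / N) hinv0.le
    have h6 : (n : ℝ) / N + 2 * (1 / N) = ((n + 2 : ℕ) : ℝ) / N := by
      push_cast; ring
    have h7 : (n : ℝ) / N + 1 / N = ((n + 1 : ℕ) : ℝ) / N := by
      push_cast; ring
    rw [h6, h7] at h5
    refine h5.trans ?_
    calc ε * (1 / N) ^ 2 ≤ ε * ((1 - w 1) / B) ^ 2 := by gcongr
      _ = ε / B ^ 2 * (1 - w 1) ^ 2 := by ring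

/-- Small perturbations of `exp (-ψ)` beyond the point where `ψ` has become constant are
standard p-functions. -/
theorem Nice.pert {ψ : ℝ → ℝ} {L a : ℝ} (h : Nice ψ L a) :
    ∃ ε : ℝ, 0 < ε ∧ ∀ K, KHyp ε K → IsStd (fun t : ℝ≥0 => ex ψ t * (1 + K t)) := by
  have hLp := h.L_pos
  have hap := h.a_pos
  set A := Real.exp (-L) with hA
  have hA0 : 0 < A := Real.exp_pos _
  have hA1 : A < 1 := by rw [hA, Real.exp_lt_one_iff]; linarith
  have h34 := h.lt (3 / 4) (by norm_num) (by norm_num)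
  have h12 : ψ (1 / 2) < ψ (3 / 4) := by
    have h1 := h.cc.conc.slope_anti_adjacent (x := 1 / 2) (y := 3 / 4) (z := 1)
      (Set.mem_Ici.mpr (by norm_num)) (Set.mem_Ici.mpr (by norm_num)) (by norm_num) (by norm_num)
    rw [h.one 1 le_rfl] at h1
    have h2 : 0 < (L - ψ (3 / 4)) / (1 - 3 / 4) := div_pos (by linarith) (by norm_num)
    have h3 := h2.trans_le h1
    rw [div_pos_iff_of_pos_right (by norm_num)] at h3
    linarith
  set ρ := min ((Real.exp (-ψ (1 / 2)) - Real.exp (-ψ (3 / 4))) / 2)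
    (A * ((L - ψ (3 / 4)) / (1 - 3 / 4)) / a) with hρ
  have hρ0 : 0 < ρ := by
    apply lt_min
    · have : Real.exp (-ψ (3 / 4)) < Real.exp (-ψ (1 / 2)) := by
        rw [Real.exp_lt_exp]; linarith
      linarith
    · have : 0 < (L - ψ (3 / 4)) / (1 - 3 / 4) := div_pos (by linarith) (by norm_num)
      positivity
  have hρ1 : 2 * ρ ≤ Real.exp (-ψ (1 / 2)) - Real.exp (-ψ (3 / 4)) := by
    have := min_le_left ((Real.exp (-ψ (1 / 2)) - Real.exp (-ψ (3 / 4))) / 2)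
      (A * ((L - ψ (3 / 4)) / (1 - 3 / 4)) / a)
    linarith
  have hρ2 : ρ * a ≤ A * ((L - ψ (3 / 4)) / (1 - 3 / 4)) := by
    have := min_le_right ((Real.exp (-ψ (1 / 2)) - Real.exp (-ψ (3 / 4))) / 2)
      (A * ((L - ψ (3 / 4)) / (1 - 3 / 4)) / a)
    rw [← hρ, le_div_iff₀ hap] at this
    exact this
  obtain ⟨T, hT, hρ3⟩ : ∃ T : ℕ, 1 ≤ T ∧
      Real.exp (-ψ (1 - 1 / (4 * T))) - A ≤ ρ * (A / 4) := by
    have hc : Continuous (fun t : ℝ≥0 => Real.exp (-ψ t)) := Real.continuous_exp.comp h.cc.cont.neg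
    have h1 := Metric.tendsto_nhds_nhds.mp (hc.tendsto 1) (ρ * (A / 4)) (by positivity)
    obtain ⟨δ, hδ, h2⟩ := h1
    obtain ⟨T, hT⟩ := exists_nat_gt (1 / δ)
    have hT0 : (0 : ℝ) < T := lt_trans (by positivity) hT
    have hT1 : 1 ≤ T := by
      have : 0 < T := by exact_mod_cast hT0
      omega
    have hTr : (1 : ℝ) ≤ T := by exact_mod_cast hT1
    refine ⟨T, hT1, ?_⟩
    have hT4 : 1 / (4 * (T : ℝ)) ≤ 1 / 4 := by
      apply one_div_le_one_div_of_le (by norm_num)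
      linarith
    have hT5 : 0 < 1 / (4 * (T : ℝ)) := by positivity
    have hT6 : 1 / (4 * (T : ℝ)) < δ := by
      rw [div_lt_iff₀ (by positivity)]
      rw [div_lt_iff₀ hδ] at hT
      nlinarith
    obtain ⟨x, hx⟩ : ∃ x : ℝ≥0, (x : ℝ) = 1 - 1 / (4 * (T : ℝ)) :=
      ⟨⟨1 - 1 / (4 * (T : ℝ)), by linarith⟩, rfl⟩
    have h3 := @h2 x (by
      rw [NNReal.dist_eq, hx, NNReal.coe_one]
      rw [show 1 - 1 / (4 * (T : ℝ)) - 1 = -(1 / (4 * (T : ℝ))) by ring, abs_neg, abs_of_pos hT5]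
      exact hT6)
    rw [Real.dist_eq, hx, NNReal.coe_one, h.one 1 le_rfl, ← hA] at h3
    exact (le_abs_self _).trans h3.le
  have hTr : (1 : ℝ) ≤ T := by exact_mod_cast hT
  have hT4 : 1 / (4 * (T : ℝ)) ≤ 1 / 4 := by
    apply one_div_le_one_div_of_le (by norm_num)
    linarith
  have hT5 : 0 < 1 / (4 * (T : ℝ)) := by positivity
  set c := A * ((L - ψ (1 - 1 / (4 * T))) / (1 - (1 - 1 / (4 * T)))) / a with hc
  have hc0 : 0 < c := by
    have h1 := h.lt (1 - 1 / (4 * T)) (by linarith) (by linarith)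
    have h2 : 0 < (L - ψ (1 - 1 / (4 * T))) / (1 - (1 - 1 / (4 * T))) :=
      div_pos (by linarith) (by linarith)
    positivity
  have hca : c * a ≤ A * ((L - ψ (1 - 1 / (4 * T))) / (1 - (1 - 1 / (4 * T)))) := by
    rw [hc, div_mul_cancel₀ _ hap.ne']
  set B := 1 - A with hB
  have hB0 : 0 < B := by linarith
  refine ⟨min (ρ ^ 7 / 4) (c * ρ ^ 6 / 2) * B ^ 2 / (a + 2), by positivity, fun K hK => ?_⟩
  set ε := min (ρ ^ 7 / 4) (c * ρ ^ 6 / 2) * B ^ 2 / (a + 2) with hε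
  have hε0 : 0 ≤ ε := by positivity
  have e1 : (a + 2) * (ε / B ^ 2) = min (ρ ^ 7 / 4) (c * ρ ^ 6 / 2) := by
    rw [hε]; field_simp
  have hs1 : (a + 2) * (ε / B ^ 2) ≤ ρ ^ 7 / 4 := by rw [e1]; exact min_le_left _ _
  have hs2 : (a + 2) * (ε / B ^ 2) ≤ c * ρ ^ 6 / 2 := by rw [e1]; exact min_le_right _ _
  have hcont : Continuous (fun t : ℝ≥0 => ex ψ t * (1 + K t)) := by
    have h1 : Continuous (ex ψ) := Real.continuous_exp.comp h.cc.cont.neg
    have h2 := hK.continuous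
    exact h1.mul (continuous_const.add (h2.comp NNReal.continuous_coe))
  apply isStd_of_skel (N := fun l => 2 * (2 * (T * (l + 1)))) hcont
  · simp [ex, h.cc.zero, hK.h1 0 (by norm_num)]
  · apply tendsto_atTop_mono (f := id) _ tendsto_id
    intro j
    simp only [id]
    have : j + 1 ≤ T * (j + 1) := Nat.le_mul_of_pos_left _ hT
    omega
  · intro l
    have hTl : 1 ≤ T * (l + 1) := Nat.one_le_iff_ne_zero.mpr (by positivity)
    have hTl' : l + 1 ≤ T * (l + 1) := Nat.le_mul_of_pos_left _ hT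
    have hy := nice_hy h (A := A) (ρ := ρ) (c := c) (B := B) (ε := ε) (T := T) (l := l + 1)
      (M := 2 * (T * (l + 1))) (J1 := 3 * (T * (l + 1)) - 1) (J := 4 * (T * (l + 1)) - (l + 1) - 1)
      hT (by omega) rfl (by omega) (by omega) hA hρ0 hρ1 hρ2 hρ3 hc0 hca hB hK hε0 hs1 hs2
    have hren := isRenewal_us hy
    convert hren using 1
    funext n
    simp only [us, ex]
    have hM0 : (0 : ℝ) < ((2 * (2 * (T * (l + 1))) : ℕ) : ℝ) := by
      have : 0 < 2 * (2 * (T * (l + 1))) := by omega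
      exact_mod_cast this
    have hcst : (((n : ℝ≥0) / ((2 * (2 * (T * (l + 1))) : ℕ) : ℝ≥0) : ℝ≥0) : ℝ) =
        (n : ℝ) / ((2 * (2 * (T * (l + 1))) : ℕ) : ℝ) := by
      push_cast; rfl
    rw [hcst]
    rcases le_or_gt n (2 * (2 * (T * (l + 1)))) with h1 | h1
    · have h2 : (n : ℝ) / ((2 * (2 * (T * (l + 1))) : ℕ) : ℝ) ≤ 1 := by
        rw [div_le_one hM0]
        exact_mod_cast h1
      rw [hK.h1 _ (by linarith)]
      ring
    · have h2 : 1 ≤ (n : ℝ) / ((2 * (2 * (T * (l + 1))) : ℕ) : ℝ) := by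
        rw [one_le_div hM0]
        exact_mod_cast h1.le
      rw [h.one _ h2, ← hA]
      ring

end Pool.Agent.Y771.IZ
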