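import Pool.Agent.Y771.IZ.Four
import Pool.Agent.Y771.IZ.Cut

set_option autoImplicit false

open Finset Filter Topology MeasureTheory
open scoped NNReal

namespace Pool.Agent.Y771.IZ

open Pool.Agent.Results.MP_0f714a_pr.NotInI0

/-- decreasing increments and continuity give concavity -/
lemma concaveOn_of_wright {φ : ℝ → ℝ} (hc : Continuous φ)
    (hw : ∀ x y h : ℝ, 0 ≤ x → x ≤ y → 0 ≤ h → φ (y + h) - φ y ≤ φ (x + h) - φ x) :
    ConcaveOn ℝ (Set.Ici 0) φ := by
  set F : ℝ → ℝ := fun t => ∫ x in (0 : ℝ)..t, φ x with hF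
  have hder : ∀ t, HasDerivAt F (φ t) t := fun t =>
    intervalIntegral.integral_hasDerivAt_right (hc.intervalIntegrable _ _)
      (hc.stronglyMeasurableAtFilter _ _) hc.continuousAt
  have hG : ∀ h : ℝ, 0 < h → ConcaveOn ℝ (Set.Ici 0) (fun t => F (t + h) - F t) := by
    intro h hh
    have hd : ∀ t, HasDerivAt (fun t => F (t + h) - F t) (φ (t + h) - φ t) t := fun t =>
      ((hder (t + h)).comp_add_const t h).sub (hder t)
    apply AntitoneOn.concaveOn_of_deriv (convex_Ici 0)
    · exact (continuous_iff_continuousAt.mpr fun t => (hd t).continuousAt).continuousOn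
    · exact fun t _ => (hd t).differentiableAt.differentiableWithinAt
    · intro x hx y hy hxy
      rw [interior_Ici] at hx
      rw [(hd x).deriv, (hd y).deriv]
      exact hw x y h (le_of_lt hx) hxy hh.le
  refine ⟨convex_Ici 0, fun a ha b hb α β hα hβ hαβ => ?_⟩
  simp only [smul_eq_mul]
  have hlim : ∀ t, Tendsto (fun h : ℝ => h⁻¹ * (F (t + h) - F t)) (𝓝[>] 0) (𝓝 (φ t)) := by
    intro t
    have := (hasDerivAt_iff_tendsto_slope_zero.mp (hder t))
    simp only [smul_eq_mul] at this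
    exact this.mono_left (nhdsWithin_mono _ (fun x hx => ne_of_gt hx))
  have h1 := ((hlim a).const_mul α).add ((hlim b).const_mul β)
  refine le_of_tendsto_of_tendsto h1 (hlim (α * a + β * b)) ?_
  filter_upwards [self_mem_nhdsWithin] with h hh
  have hh' : (0 : ℝ) < h := hh
  have h2 := (hG h hh').2 ha hb hα hβ hαβ
  simp only [smul_eq_mul] at h2
  have h3 : α * (h⁻¹ * (F (a + h) - F a)) + β * (h⁻¹ * (F (b + h) - F b)) =
      h⁻¹ * (α * (F (a + h) - F a) + β * (F (b + h) - F b)) := by ring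
  rw [h3]
  gcongr

/-- the exponent of an infinitely divisible standard p-function -/
theorem exists_exponent {p : ℝ≥0 → ℝ} (hp : IsStd p) (hd : InfDiv p) :
    ∃ φ : ℝ → ℝ, Cc φ ∧ p = ex φ := by
  set φ : ℝ → ℝ := fun t => -Real.log (p t.toNNReal) with hφ
  have hcp := continuous_of_std hp
  have hc : Continuous φ := by
    have h1 : Continuous (fun t : ℝ => p t.toNNReal) := hcp.comp continuous_real_toNNReal
    exact (h1.log (fun t => (pos_of_std hp _).ne')).neg
  have h0 : ∀ t, 0 ≤ φ t := by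
    intro t
    have := Real.log_nonpos (hp.1.2.1 t.toNNReal).1 (hp.1.2.1 t.toNNReal).2
    simp only [hφ]; linarith
  have hw : ∀ x y h : ℝ, 0 ≤ x → x ≤ y → 0 ≤ h → φ (y + h) - φ y ≤ φ (x + h) - φ x := by
    intro x y h hx hxy hh
    have h1 := wright hp hd (y - x).toNNReal x.toNNReal h.toNNReal
    have e1 : (y - x).toNNReal + x.toNNReal = y.toNNReal := by
      rw [← Real.toNNReal_add (by linarith) hx]; congr 1; ring
    have e2 : y.toNNReal + h.toNNReal = (y + h).toNNReal :=
      (Real.toNNReal_add (by linarith) hh).symm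
    have e3 : x.toNNReal + h.toNNReal = (x + h).toNNReal := (Real.toNNReal_add hx hh).symm
    rw [e1, e2, e3] at h1
    simp only [hφ]
    linarith
  have hcc := concaveOn_of_wright hc hw
  refine ⟨φ, ⟨?_, hcc, ?_, hc.comp NNReal.continuous_coe⟩, ?_⟩
  · simp [hφ, hp.1.1]
  · intro a ha b hb hab
    have ha' : 0 ≤ a := ha
    by_contra hcon
    push Not at hcon
    have hlt : a < b := by
      rcases eq_or_lt_of_le hab with h1 | h1
      · rw [h1] at hcon; exact absurd hcon (lt_irrefl _)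
      · exact h1
    set m := (φ a - φ b) / (b - a) with hm
    have hm0 : 0 < m := div_pos (by linarith) (by linarith)
    have hz : b < b + (φ b + 1) / m := by
      have := h0 b
      have : 0 < (φ b + 1) / m := by positivity
      linarith
    have h1 := hcc.slope_anti_adjacent ha (z := b + (φ b + 1) / m)
      (Set.mem_Ici.mpr (by linarith)) hlt hz
    have e1 : (φ b - φ a) / (b - a) = -m := by rw [hm]; ring
    rw [e1, show b + (φ b + 1) / m - b = (φ b + 1) / m by ring,
      div_le_iff₀ (by linarith)] at h1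
    have e2 : -m * ((φ b + 1) / m) = -(φ b + 1) := by field_simp
    rw [e2] at h1
    have := h0 (b + (φ b + 1) / m)
    linarith
  · funext t
    unfold ex
    simp only [hφ, neg_neg, Real.toNNReal_coe]
    rw [Real.exp_log (pos_of_std hp t)]

lemma Cc.add {ψ φ : ℝ → ℝ} (h : Cc ψ) (h' : Cc φ) : Cc (fun t => ψ t + φ t) :=
  ⟨by simp [h.zero, h'.zero], h.conc.add h'.conc, h.mono.add h'.mono, h.cont.add h'.cont⟩

/-- a nonlinear concave exponent has a summand which is constant exactly from some point on -/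
theorem decomp {φ : ℝ → ℝ} (h : Cc φ) {s t : ℝ} (hs : 0 < s) (hst : s < t)
    (hlt : φ t * s < φ s * t) :
    ∃ (φ1 φ2 : ℝ → ℝ) (d : ℝ≥0) (L a : ℝ), Cc φ1 ∧ Cc φ2 ∧ (∀ x, φ x = φ1 x + φ2 x) ∧
      0 < d ∧ (∀ x, (d : ℝ) ≤ x → φ1 x = L) ∧ (∀ x : ℝ, 0 ≤ x → x < d → φ1 x < L) ∧
      (∀ x, 0 ≤ x → φ1 x ≤ a * x) := by
  have ht : 0 < t := hs.trans hst
  -- first cut
  obtain ⟨c, hc0, hcs, hcη⟩ : ∃ c : ℝ, 0 < c ∧ c < s ∧ φ c * (t - s) < φ s * t - φ t * s := by
    set η := (φ s * t - φ t * s) / (t - s) with hη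
    have hη0 : 0 < η := div_pos (by linarith) (by linarith)
    have h1 := Metric.tendsto_nhds_nhds.mp (h.cont.tendsto 0) η hη0
    obtain ⟨δ, hδ, h2⟩ := h1
    have hc0 : 0 < min (s / 2) (δ / 2) := lt_min (by linarith) (by linarith)
    obtain ⟨x, hx⟩ : ∃ x : ℝ≥0, (x : ℝ) = min (s / 2) (δ / 2) := ⟨⟨_, hc0.le⟩, rfl⟩
    have h3 := @h2 x (by
      rw [NNReal.dist_eq, hx, NNReal.coe_zero, sub_zero, abs_of_pos hc0]
      exact (min_le_right _ _).trans_lt (by linarith))
    rw [Real.dist_eq, NNReal.coe_zero, h.zero, sub_zero, hx, abs_of_nonneg (h.nonneg hc0.le)] at h3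
    refine ⟨min (s / 2) (δ / 2), hc0, (min_le_left _ _).trans_lt (by linarith), ?_⟩
    rw [hη, lt_div_iff₀ (by linarith)] at h3
    exact h3
  obtain ⟨g, hg0, hg⟩ := h.support hc0
  have hH : Cc (high φ c g) := h.isHigh hc0 hg0 hg
  have hLw : Cc (low φ c g) := h.isLow hc0 hg
  set ψ := high φ c g with hψ
  have hψg : ∀ x, 0 ≤ x → ψ x ≤ g * x := by
    intro x hx
    rcases le_total x c with h1 | h1
    · rw [hψ, high_of_le h1]
    · rw [hψ, high_of_ge h1]
      have := hg x hx
      linarith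
  obtain ⟨g', hg0', hg'⟩ := hH.support ht
  have hH2 : Cc (high ψ t g') := hH.isHigh ht hg0' hg'
  have hL2 : Cc (low ψ t g') := hH.isLow ht hg'
  set φ1 := low ψ t g' with hφ1
  have hL1 : ∀ x, t ≤ x → φ1 x = ψ t - g' * t := fun x hx => low_of_ge hx
  set L := ψ t - g' * t with hL
  have hLpos : 0 < L := by
    by_contra hcon
    push Not at hcon
    have e1 : ψ s = φ s - φ c + g * c := high_of_ge hcs.le
    have e2 : ψ t = φ t - φ c + g * c := high_of_ge (hcs.trans hst).le
    have k1 := hg' s hs.le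
    have k2 : ψ s * t ≤ ψ t * s := by
      have k3 : ψ s * t ≤ (ψ t + g' * (s - t)) * t := by gcongr
      have k4 : 0 ≤ (g' * t - ψ t) * (t - s) := mul_nonneg (by linarith) (by linarith)
      nlinarith
    rw [e1, e2] at k2
    have k5 : (φ c - g * c) * (t - s) ≤ φ c * (t - s) := by
      have : 0 ≤ g * c := by positivity
      have : 0 ≤ t - s := by linarith
      gcongr
      linarith
    nlinarith
  have hle : ∀ x, 0 ≤ x → φ1 x ≤ L := by
    intro x hx
    rw [← hL1 (max x t) (le_max_right _ _)]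
    exact hL2.mono (Set.mem_Ici.mpr hx) (Set.mem_Ici.mpr (hx.trans (le_max_left _ _)))
      (le_max_left _ _)
  -- the first point where the cut exponent is constant
  set D : Set ℝ≥0 := {x | L ≤ φ1 x} with hD
  have hDc : IsClosed D := isClosed_le continuous_const hL2.cont
  have hDn : D.Nonempty := ⟨⟨t, ht.le⟩, by
    show L ≤ φ1 t
    rw [hL1 t le_rfl]⟩
  have hDb : BddBelow D := ⟨0, fun x _ => zero_le⟩
  have hmem := hDc.csInf_mem hDn hDb
  set d := sInf D with hd
  have hdL : L ≤ φ1 d := hmem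
  have hd0 : 0 < d := by
    by_contra hcon
    have h1 : d = 0 := le_antisymm (not_lt.mp hcon) zero_le
    rw [h1, NNReal.coe_zero, hL2.zero] at hdL
    linarith
  refine ⟨φ1, fun x => high ψ t g' x + low φ c g x, d, L, g, hL2, hH2.add hLw, ?_, hd0,
    ?_, ?_, ?_⟩
  · intro x
    rw [hφ1]
    simp only [high, hψ]
    ring
  · intro x hx
    apply le_antisymm (hle x ((NNReal.coe_nonneg d).trans hx))
    exact hdL.trans (hL2.mono (Set.mem_Ici.mpr (NNReal.coe_nonneg d))
      (Set.mem_Ici.mpr ((NNReal.coe_nonneg d).trans hx)) hx)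
  · intro x hx0 hx
    by_contra hcon
    push Not at hcon
    have : d ≤ ⟨x, hx0⟩ := csInf_le hDb hcon
    have : (d : ℝ) ≤ x := this
    linarith
  · intro x hx
    have h1 : 0 ≤ min x t := le_min hx ht.le
    have h2 := hψg (min x t) h1
    have h3 : φ1 x = ψ (min x t) - g' * min x t := rfl
    rw [h3]
    have h4 : 0 ≤ g' * min x t := by positivity
    have h5 : g * min x t ≤ g * x := by
      have := min_le_left x t
      gcongr
    linarith

end Pool.Agent.Y771.IZ
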